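import Pool.Agent.W5h81.KR.Build

/-!
# Asymptotics of the reachability data structure
-/

set_option autoImplicit false

namespace Pool.Agent.W5h81.KR

open Finset Pool.Agent.H588R2 Filter

/-- A word RAM data structure for `k`-reachability in the directed graph `G`: for a suitable content
`D` of the memory (words of `w` bits, all cells from the cell number `S` on are zero) and all
vertices `u`, `v`, the program `P`, started with `u` and `v` in the registers `0` and `1`, halts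
after at most `T` steps with output `1` if there is a directed walk from `u` to `v` with at most `k`
edges, and with output `0` otherwise. -/
def Solves {n : ℕ} (k w S T : ℕ) (P : List Instr) (G : Fin n → Fin n → Prop) : Prop :=
  ∃ D : ℕ → ℕ, (∀ x, D x < 2 ^ w) ∧ (∀ x, S ≤ x → D x = 0) ∧
    ∀ u v : Fin n,
      (ReachLE G k u v → HaltsWithin w P (queryConfig D u v) T 1) ∧
      (¬ ReachLE G k u v → HaltsWithin w P (queryConfig D u v) T 0)

/-- The data structures exist for all directed graphs with `n` vertices and at most `C₀ n` edges,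
with words of `c (⌊log₂ n⌋ + 1)` bits. -/
def SolvesAll (k C₀ c n S T : ℕ) (P : List Instr) : Prop :=
  ∀ G : Fin n → Fin n → Prop, {e : Fin n × Fin n | G e.1 e.2}.ncard ≤ C₀ * n →
    Solves k (c * (Nat.log 2 n + 1)) S T P G

theorem tradeoff (k C₀ : ℕ) (hk : 1 ≤ k) (τ ε : ℝ) (hτ : 0 < τ) (hτ6 : τ ≤ 1 / 6) (hε : 0 < ε)
    (hε1 : ε ≤ 1) :
    ∃ S T : ℕ → ℕ, ∀ᶠ n : ℕ in atTop, (T n : ℝ) ≤ (n : ℝ) ^ τ ∧
      (S n : ℝ) ≤ (n : ℝ) ^ (2 - 4 * τ / (k + 1) + ε) ∧ SolvesAll k C₀ 5 n (S n) (T n) prog := by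
  classical
  -- parameters
  obtain ⟨M₀, hM₀⟩ := exists_nat_gt (1 / ε)
  have hM₀pos : 0 < M₀ := by
    have h1 : 0 < 1 / ε := by positivity
    have : (0 : ℝ) < M₀ := h1.trans hM₀
    exact_mod_cast this
  set s := 4 * M₀ - 1 with hs
  set N := (k + 1) * M₀ with hN
  have hNpos : 0 < N := Nat.mul_pos (Nat.succ_pos _) hM₀pos
  have hsN : (s + 1) * (k + 1) < 4 * (N + 1) := by
    have h1 : s + 1 = 4 * M₀ := by omega
    rw [h1, hN]
    have : 4 * M₀ * (k + 1) = 4 * ((k + 1) * M₀) := by ring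
    omega
  set η := min (τ / 2) (ε / 8) with hη
  have hηpos : 0 < η := lt_min (by positivity) (by positivity)
  have hη1 : η ≤ τ / 2 := min_le_left _ _
  have hη2 : η ≤ ε / 8 := min_le_right _ _
  set e := (τ - η) / N with he
  have hNR : (0 : ℝ) < N := by exact_mod_cast hNpos
  have hepos : 0 < e := by
    apply div_pos _ hNR
    linarith
  have heN : e * N = τ - η := by
    rw [he]; field_simp
  set β := 2 - 4 * τ / (k + 1) + ε with hβ
  set β' := β - ε / 2 with hβ'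
  have hkR : (1 : ℝ) ≤ k := by exact_mod_cast hk
  have hk1 : (0 : ℝ) < (k : ℝ) + 1 := by linarith
  have h4k : 4 * τ / (k + 1) ≤ 2 * τ := by
    rw [div_le_iff₀ hk1]
    nlinarith
  have h4k0 : 0 ≤ 4 * τ / (k + 1) := by positivity
  -- exponents
  have hes : 4 * τ / (k + 1) - ε / 2 ≤ e * s := by
    have h1 : (s : ℝ) = 4 * M₀ - 1 := by
      rw [hs, Nat.cast_sub (by omega)]
      push_cast
      ring
    have hM₀R : (0 : ℝ) < M₀ := by exact_mod_cast hM₀pos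
    have h2 : e * s = (τ - η) * 4 / (k + 1) - (τ - η) / ((k + 1) * M₀) := by
      rw [he, h1, hN]
      push_cast
      field_simp
    rw [h2]
    have h3 : (τ - η) * 4 / (k + 1) = 4 * τ / (k + 1) - 4 * η / (k + 1) := by ring
    have h4 : 4 * η / (k + 1) ≤ 2 * η := by
      rw [div_le_iff₀ hk1]
      nlinarith
    have h5 : (τ - η) / ((k + 1) * M₀) ≤ ε / 4 := by
      rw [div_le_iff₀ (by positivity)]
      have h6 : 1 < ε * M₀ := by
        rw [div_lt_iff₀ hε] at hM₀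
        linarith
      nlinarith
    rw [h3]
    linarith
  have hexp1 : 3 / 2 + (τ - η) ≤ β' := by
    rw [hβ', hβ]
    linarith
  have hexp2 : 2 - e * s ≤ β' := by
    rw [hβ', hβ]
    linarith
  have hβ'0 : 1 ≤ β' := by linarith
  set M := (N + 1) ^ (k + 1) with hM
  set t : ℕ → ℕ := fun n => ⌊(n : ℝ) ^ e⌋₊ with ht
  set A : ℕ → ℕ := fun n => 2 * (C₀ + 1) * n with hA
  set X : ℕ → ℕ := fun n => n * (t n ^ N * (n.sqrt + 1)) + (A n * A n / t n ^ s + 1) with hX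
  set C₁ : ℝ := M * 38 + 14 with hC₁
  set c₃ : ℝ := 4 * (C₀ + 1) ^ 2 * 2 ^ s with hc₃
  set C₂ : ℝ := 5 + 2 * M + M * (10 + c₃) with hC₂
  refine ⟨fun n => 3 + 2 * (n * M) + (n + 1) + M * (n * (2 + 3 * t n ^ N) + n * (n.sqrt + 1) + X n),
    fun n => M * (13 * (2 * t n ^ N) + 12) + 14, ?_⟩
  have ev1 : ∀ᶠ n : ℕ in atTop, (2 : ℝ) ≤ (n : ℝ) ^ e :=
    ((tendsto_rpow_atTop hepos).comp tendsto_natCast_atTop_atTop).eventually_ge_atTop 2
  have ev2 : ∀ᶠ n : ℕ in atTop, C₁ ≤ (n : ℝ) ^ η :=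
    ((tendsto_rpow_atTop hηpos).comp tendsto_natCast_atTop_atTop).eventually_ge_atTop C₁
  have ev3 : ∀ᶠ n : ℕ in atTop, C₂ ≤ (n : ℝ) ^ (ε / 2) :=
    ((tendsto_rpow_atTop (by positivity : 0 < ε / 2)).comp
      tendsto_natCast_atTop_atTop).eventually_ge_atTop C₂
  filter_upwards [ev1, ev2, ev3, eventually_ge_atTop 2] with n h1 h2 h3 hn2
  have hnR : (2 : ℝ) ≤ n := by exact_mod_cast hn2
  have hn0 : (0 : ℝ) < n := by linarith
  have hn1 : (1 : ℝ) ≤ n := by linarith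
  have ht2 : 2 ≤ t n := Nat.le_floor (by exact_mod_cast h1)
  have htle : (t n : ℝ) ≤ (n : ℝ) ^ e := Nat.floor_le (by positivity)
  have htge : (n : ℝ) ^ e / 2 ≤ t n := by
    have := Nat.lt_floor_add_one ((n : ℝ) ^ e)
    have h4 : (t n : ℝ) = (⌊(n : ℝ) ^ e⌋₊ : ℝ) := rfl
    rw [h4]
    linarith
  have htN : ((t n : ℝ)) ^ N ≤ (n : ℝ) ^ (τ - η) := by
    calc ((t n : ℝ)) ^ N ≤ ((n : ℝ) ^ e) ^ N := pow_le_pow_left₀ (by positivity) htle N
      _ = (n : ℝ) ^ (τ - η) := by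
        rw [← Real.rpow_natCast, ← Real.rpow_mul hn0.le, heN]
  have hts : (n : ℝ) ^ (e * s) / 2 ^ s ≤ (t n : ℝ) ^ s := by
    calc (n : ℝ) ^ (e * s) / 2 ^ s = ((n : ℝ) ^ e / 2) ^ s := by
          rw [div_pow, ← Real.rpow_natCast ((n : ℝ) ^ e), ← Real.rpow_mul hn0.le]
      _ ≤ (t n : ℝ) ^ s := pow_le_pow_left₀ (by positivity) htge s
  have hone : (1 : ℝ) ≤ (n : ℝ) ^ (τ - η) := Real.one_le_rpow hn1 (by linarith)
  have hTn : ((M * (13 * (2 * t n ^ N) + 12) + 14 : ℕ) : ℝ) ≤ (n : ℝ) ^ τ := by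
    have h4 : (n : ℝ) ^ τ = (n : ℝ) ^ (τ - η) * (n : ℝ) ^ η := by
      rw [← Real.rpow_add hn0]; congr 1; ring
    have h5 : C₁ * (n : ℝ) ^ (τ - η) ≤ (n : ℝ) ^ τ := by
      rw [h4, mul_comm]
      exact mul_le_mul_of_nonneg_left h2 (by positivity)
    refine le_trans ?_ h5
    push_cast
    have hMR : (0 : ℝ) ≤ (M : ℝ) := by positivity
    have h6 : (M : ℝ) * (13 * (2 * (t n : ℝ) ^ N) + 12) ≤ M * (38 * (n : ℝ) ^ (τ - η)) := by
      apply mul_le_mul_of_nonneg_left _ hMR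
      linarith
    rw [hC₁]
    nlinarith
  set y := (n : ℝ) ^ β' with hy
  have hy1 : 1 ≤ y := Real.one_le_rpow hn1 (by linarith)
  have hyn : (n : ℝ) ≤ y := by
    calc (n : ℝ) = (n : ℝ) ^ (1 : ℝ) := (Real.rpow_one _).symm
      _ ≤ y := Real.rpow_le_rpow_of_exponent_le hn1 hβ'0
  have hsq : ((n.sqrt : ℕ) : ℝ) ≤ (n : ℝ) ^ (1 / 2 : ℝ) := by
    rw [← Real.sqrt_eq_rpow]
    exact Real.nat_sqrt_le_real_sqrt
  have hsq1 : (1 : ℝ) ≤ (n : ℝ) ^ (1 / 2 : ℝ) := Real.one_le_rpow hn1 (by norm_num)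
  have hx1 : (n : ℝ) * ((t n : ℝ) ^ N * (((n.sqrt : ℕ) : ℝ) + 1)) ≤ 2 * y := by
    calc (n : ℝ) * ((t n : ℝ) ^ N * (((n.sqrt : ℕ) : ℝ) + 1))
        ≤ n * ((n : ℝ) ^ (τ - η) * (2 * (n : ℝ) ^ (1 / 2 : ℝ))) := by
          apply mul_le_mul_of_nonneg_left _ hn0.le
          apply mul_le_mul htN _ (by positivity) (by positivity)
          linarith
      _ = 2 * ((n : ℝ) ^ (1 : ℝ) * (n : ℝ) ^ (τ - η) * (n : ℝ) ^ (1 / 2 : ℝ)) := by
          rw [Real.rpow_one]; ring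
      _ = 2 * (n : ℝ) ^ (3 / 2 + (τ - η)) := by
          rw [← Real.rpow_add hn0, ← Real.rpow_add hn0]
          congr 2
          ring
      _ ≤ 2 * y := by
          apply mul_le_mul_of_nonneg_left _ (by norm_num)
          exact Real.rpow_le_rpow_of_exponent_le hn1 hexp1
  have hx2 : (n : ℝ) * (t n : ℝ) ^ N ≤ y := by
    calc (n : ℝ) * (t n : ℝ) ^ N ≤ n * (n : ℝ) ^ (τ - η) :=
          mul_le_mul_of_nonneg_left htN hn0.le
      _ = (n : ℝ) ^ (1 + (τ - η)) := by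
          rw [Real.rpow_add hn0, Real.rpow_one]
      _ ≤ y := Real.rpow_le_rpow_of_exponent_le hn1 (by linarith)
  have hx3 : (n : ℝ) * (((n.sqrt : ℕ) : ℝ) + 1) ≤ 2 * y := by
    calc (n : ℝ) * (((n.sqrt : ℕ) : ℝ) + 1) ≤ n * (2 * (n : ℝ) ^ (1 / 2 : ℝ)) := by
          apply mul_le_mul_of_nonneg_left _ hn0.le
          linarith
      _ = 2 * (n : ℝ) ^ (1 + 1 / 2 : ℝ) := by
          rw [Real.rpow_add hn0, Real.rpow_one]; ring
      _ ≤ 2 * y := by
          apply mul_le_mul_of_nonneg_left _ (by norm_num)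
          exact Real.rpow_le_rpow_of_exponent_le hn1 (by linarith)
  have htspos : (0 : ℝ) < (t n : ℝ) ^ s := by positivity
  have hx4 : ((A n * A n / t n ^ s : ℕ) : ℝ) ≤ c₃ * y := by
    calc ((A n * A n / t n ^ s : ℕ) : ℝ) ≤ ((A n * A n : ℕ) : ℝ) / ((t n ^ s : ℕ) : ℝ) :=
          Nat.cast_div_le
      _ = (4 * (C₀ + 1) ^ 2 * (n : ℝ) ^ 2) / (t n : ℝ) ^ s := by
          simp only [hA]; push_cast; ring
      _ ≤ (4 * (C₀ + 1) ^ 2 * (n : ℝ) ^ 2) / ((n : ℝ) ^ (e * s) / 2 ^ s) := by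
          apply div_le_div_of_nonneg_left (by positivity) (by positivity) hts
      _ = c₃ * ((n : ℝ) ^ 2 / (n : ℝ) ^ (e * s)) := by
          rw [hc₃]; field_simp
      _ = c₃ * (n : ℝ) ^ (2 - e * s) := by
          rw [Real.rpow_sub hn0, Real.rpow_two]
      _ ≤ c₃ * y := by
          apply mul_le_mul_of_nonneg_left _ (by positivity)
          exact Real.rpow_le_rpow_of_exponent_le hn1 hexp2
  have hXn : (X n : ℝ) ≤ (3 + c₃) * y := by
    simp only [hX]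
    push_cast
    push_cast at hx4
    linarith
  have hSn : ((3 + 2 * (n * M) + (n + 1) + M * (n * (2 + 3 * t n ^ N) + n * (n.sqrt + 1) + X n) : ℕ)
      : ℝ) ≤ (n : ℝ) ^ β := by
    have h4 : (n : ℝ) ^ β = (n : ℝ) ^ (ε / 2) * y := by
      rw [hy, ← Real.rpow_add hn0]; congr 1; rw [hβ']; ring
    have h5 : C₂ * y ≤ (n : ℝ) ^ β := by
      rw [h4]
      exact mul_le_mul_of_nonneg_right h3 (by positivity)
    refine le_trans ?_ h5
    push_cast
    have hMR : (0 : ℝ) ≤ (M : ℝ) := by positivity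
    have h6 : (n : ℝ) * (2 + 3 * (t n : ℝ) ^ N) + n * (((n.sqrt : ℕ) : ℝ) + 1) + X n ≤
        (10 + c₃) * y := by
      linarith
    have h7 := mul_le_mul_of_nonneg_left h6 hMR
    have h8 := mul_le_mul_of_nonneg_left hyn hMR
    rw [hC₂]
    nlinarith
  refine ⟨hTn, hSn, ?_⟩
  intro G hG
  have hβ3 : β ≤ 3 := by
    rw [hβ]; linarith
  have hw : 2 * (3 + 2 * (n * M) + (n + 1) +
      M * (n * (2 + 3 * t n ^ N) + n * (n.sqrt + 1) + X n)) + 2 < 2 ^ (5 * (Nat.log 2 n + 1)) := by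
    have h4 : 3 + 2 * (n * M) + (n + 1) +
        M * (n * (2 + 3 * t n ^ N) + n * (n.sqrt + 1) + X n) ≤ n ^ 3 := by
      have h5 : (n : ℝ) ^ β ≤ (n : ℝ) ^ (3 : ℝ) := Real.rpow_le_rpow_of_exponent_le hn1 hβ3
      have h6 : (n : ℝ) ^ (3 : ℝ) = ((n ^ 3 : ℕ) : ℝ) := by
        rw [show (3 : ℝ) = ((3 : ℕ) : ℝ) by norm_num, Real.rpow_natCast]
        push_cast
        rfl
      have h7 := hSn.trans (h5.trans_eq h6)
      exact_mod_cast h7
    have h5 : n < 2 ^ (Nat.log 2 n + 1) := Nat.lt_pow_succ_log_self (by norm_num) n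
    have h6 : n ^ 5 < 2 ^ (5 * (Nat.log 2 n + 1)) := by
      rw [mul_comm 5, pow_mul]
      exact Nat.pow_lt_pow_left h5 (by norm_num)
    have h7 : 2 * n ^ 3 + 2 ≤ n ^ 5 := by
      have h8 : 2 ^ 2 ≤ n ^ 2 := Nat.pow_le_pow_left hn2 2
      have h9 : n ^ 5 = n ^ 2 * n ^ 3 := by ring
      have h10 : 2 ^ 3 ≤ n ^ 3 := Nat.pow_le_pow_left hn2 3
      rw [h9]
      nlinarith
    omega
  obtain ⟨D, hD1, hD2, hD3⟩ := solves G k N s (t n) C₀ (X n) (5 * (Nat.log 2 n + 1)) _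
    (by omega) ht2 hsN hG (by simp only [hX]; exact Nat.le_add_right _ _) (by
      simp only [hX]
      have h4 : A n * A n < (A n * A n / t n ^ s + 1) * t n ^ s := by
        rw [mul_comm (_ + 1)]
        exact Nat.lt_mul_div_succ _ (Nat.pow_pos (by omega))
      calc (2 * (C₀ + 1) * n) * (2 * (C₀ + 1) * n) = A n * A n := rfl
        _ ≤ (A n * A n / t n ^ s + 1) * t n ^ s := h4.le
        _ ≤ _ := Nat.mul_le_mul_right _ (Nat.le_add_left _ _)) le_rfl hw (T := ((M * (13 * (2 * t n ^ N) + 12) + 14 : ℕ) : ℝ)) le_rfl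
  refine ⟨D, hD1, hD2, fun u v => ⟨fun h => ?_, fun h => ?_⟩⟩
  · have := hD3 u v
    rw [ind_true h] at this
    exact this
  · have := hD3 u v
    rw [ind_false h] at this
    exact this

end Pool.Agent.W5h81.KR
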