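import Pool.Agent.W5h81.KR.Graph

/-!
# The data structure for a given graph
-/

set_option autoImplicit false

namespace Pool.Agent.W5h81.KR

open Finset Pool.Agent.H588R2

section
variable {n : ℕ} (G : Fin n → Fin n → Prop) (cl : Fin n → ℕ)

theorem mem_fw {a : ℕ → ℕ} {i : ℕ} {u x : Fin n} :
    x ∈ fw G cl a i u ↔ Wk G cl a 0 i u x := by
  classical
  unfold fw
  rw [mem_filter]
  exact ⟨fun h => h.2, fun h => ⟨mem_univ _, h⟩⟩

theorem mem_bw {a : ℕ → ℕ} {k j : ℕ} {v x : Fin n} :
    x ∈ bw G cl a k j v ↔ Wk G cl a j (k - j) x v := by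
  classical
  unfold bw
  rw [mem_filter]
  exact ⟨fun h => h.2, fun h => ⟨mem_univ _, h⟩⟩

open Classical in
/-- the vertices of a class -/
noncomputable def cls (c : ℕ) : Finset (Fin n) := univ.filter (fun x => cl x = c)

theorem mem_cls {c : ℕ} {x : Fin n} : x ∈ cls cl c ↔ cl x = c := by
  classical
  unfold cls
  rw [mem_filter]
  exact ⟨fun h => h.2, fun h => ⟨mem_univ _, h⟩⟩

open Classical in
/-- the number of a vertex in its class -/
noncomputable def rk (c : ℕ) (y : Fin n) : ℕ :=
  if h : y ∈ cls cl c then ((cls cl c).equivFin ⟨y, h⟩ : ℕ) else 0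

theorem rk_lt {c : ℕ} {y : Fin n} (h : cl y = c) : rk cl c y < (cls cl c).card := by
  classical
  unfold rk
  rw [dif_pos ((mem_cls cl).2 h)]
  exact Fin.is_lt _

theorem rk_inj {c : ℕ} {y z : Fin n} (hy : cl y = c) (hz : cl z = c)
    (h : rk cl c y = rk cl c z) : y = z := by
  classical
  unfold rk at h
  rw [dif_pos ((mem_cls cl).2 hy), dif_pos ((mem_cls cl).2 hz)] at h
  have h1 := (cls cl c).equivFin.injective (Fin.ext h)
  exact congrArg Subtype.val h1

open Classical in
/-- The lists and tables for the walks whose vertices are in prescribed classes. -/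
theorem local_scheme {t N s A X Q : ℕ} (k : ℕ) (a : ℕ → ℕ) (ht : 1 ≤ t)
    (hcl : ∀ x, cl x < N → dg G x ≤ t ^ (cl x + 1)) (hcl2 : ∀ x, t ^ cl x ≤ dg G x)
    (hA : ∑ x, dg G x ≤ A) (hS : (s + 1) * (k + 1) < 4 * (N + 1))
    (hQ : n ≤ Q * Q) (hQ0 : 0 < Q) (hQn : Q ≤ n + 1)
    (hX1 : n * (t ^ N * Q) ≤ X) (hX2 : A * A ≤ X * t ^ s) :
    ∃ (zs : Fin n → List (Fin n)) (ys : Fin n → List (Fin Q × ℕ))
      (bit : Fin n → Fin Q → ℕ → Prop) (sup : Fin n → Fin Q → Prop) (Rm : ℕ),
      (∀ v, ∀ y ∈ ys v, y.2 < Rm) ∧ (∀ z q r, bit z q r → sup z q) ∧ Rm ≤ n + 1 ∧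
      (∀ u, (zs u).length ≤ t ^ N) ∧ (∀ v, (ys v).length ≤ t ^ N) ∧
      (∀ u v, (zs u).length * ((ys v).length + 1) ≤ 2 * t ^ N) ∧
      (∑ z, ∑ q, (if sup z q then Rm else 0) ≤ X) ∧
      ∀ u v, (∃ z ∈ zs u, ∃ y ∈ ys v, bit z y.1 y.2) ↔ Wk G cl a 0 k u v := by
  have tpos : ∀ e, 1 ≤ t ^ e := fun e => Nat.one_le_pow _ _ ht
  rcases strategy k N s a hS with ⟨i, hik, h1, h2⟩ | ⟨i, j, hij, hjk, h1, h2⟩
  · -- intersection
    have hfw : ∀ u, (fw G cl a i u).card ≤ t ^ N := fun u =>
      (fw_card G cl a hcl le_rfl i h1 u).trans (Nat.pow_le_pow_right ht h1)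
    have hbw : ∀ v, (bw G cl a k i v).card ≤ t ^ N := fun v =>
      (bw_card G cl a hcl le_rfl k (k - i) i (by omega) h2 v).trans (Nat.pow_le_pow_right ht h2)
    have hlt : ∀ y : Fin n, y.val / Q < Q := fun y => by
      rw [Nat.div_lt_iff_lt_mul hQ0]
      exact lt_of_lt_of_le y.2 hQ
    refine ⟨fun u => [u], fun v => (bw G cl a k i v).toList.map
      (fun y => ((⟨y.val / Q, hlt y⟩ : Fin Q), y.val % Q)),
      fun z q r => ∃ y ∈ fw G cl a i z, y.val / Q = q ∧ y.val % Q = r,
      fun z q => ∃ y ∈ fw G cl a i z, y.val / Q = q, Q, ?_, ?_, hQn, ?_, ?_, ?_, ?_, ?_⟩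
    · intro v y hy
      rw [List.mem_map] at hy
      obtain ⟨x, -, rfl⟩ := hy
      exact Nat.mod_lt _ hQ0
    · rintro z q r ⟨y, h3, h4, -⟩
      exact ⟨y, h3, h4⟩
    · intro u
      simpa using tpos N
    · intro v
      simpa using hbw v
    · intro u v
      simp only [List.length_cons, List.length_nil, List.length_map, length_toList]
      have := hbw v
      have := tpos N
      omega
    · refine le_trans ?_ hX1
      have h3 : ∀ z : Fin n, ∑ q : Fin Q, (if ∃ y ∈ fw G cl a i z, y.val / Q = q then Q else 0) ≤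
          t ^ N * Q := by
        intro z
        rw [← sum_filter, sum_const, smul_eq_mul]
        apply Nat.mul_le_mul_right
        refine le_trans ?_ (hfw z)
        have h4 : univ.filter (fun q : Fin Q => ∃ y ∈ fw G cl a i z, y.val / Q = q) ⊆
            (fw G cl a i z).image (fun y => (⟨y.val / Q, hlt y⟩ : Fin Q)) := by
          intro q hq
          rw [mem_filter] at hq
          obtain ⟨-, y, h5, h6⟩ := hq
          rw [mem_image]
          exact ⟨y, h5, Fin.ext h6⟩
        exact (card_le_card h4).trans card_image_le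
      have h6 : ∑ z : Fin n, t ^ N * Q = n * (t ^ N * Q) := by simp
      rw [← h6]
      apply sum_le_sum
      intro z _
      refine (le_of_eq ?_).trans (h3 z)
      apply sum_congr rfl
      intro q _
      congr
    · intro u v
      constructor
      · rintro ⟨z, hz, y, hy, x, h3, h4, h5⟩
        rw [List.mem_singleton] at hz
        subst hz
        rw [List.mem_map] at hy
        obtain ⟨x', h6, rfl⟩ := hy
        simp only at h4 h5
        have h7 : x = x' := by
          apply Fin.ext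
          rw [← Nat.div_add_mod x.val Q, ← Nat.div_add_mod x'.val Q, h4, h5]
        subst h7
        rw [mem_toList, mem_bw] at h6
        rw [mem_fw] at h3
        have h8 : k = i + (k - i) := by omega
        rw [h8, Wk.comp]
        exact ⟨x, h3, by rw [zero_add]; exact h6⟩
      · intro h
        have h8 : k = i + (k - i) := by omega
        rw [h8, Wk.comp] at h
        obtain ⟨x, h3, h4⟩ := h
        rw [zero_add] at h4
        refine ⟨u, List.mem_singleton.2 rfl, _, List.mem_map.2 ⟨x, ?_, rfl⟩, x, ?_, rfl, rfl⟩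
        · rw [mem_toList, mem_bw]
          exact h4
        · rw [mem_fw]
          exact h3
  · -- table
    have h3 : pre (fun l => a l + 1) i ≤ N := by omega
    have h4 : suf (fun l => a l + 1) k j ≤ N := by omega
    have hfw : ∀ u, (fw G cl a i u).card ≤ t ^ pre (fun l => a l + 1) i := fun u =>
      (fw_card G cl a hcl le_rfl i h3 u)
    have hbw : ∀ v, (bw G cl a k j v).card ≤ t ^ suf (fun l => a l + 1) k j := fun v =>
      (bw_card G cl a hcl le_rfl k (k - j) j (by omega) h4 v)
    refine ⟨fun u => (fw G cl a i u).toList, fun v => (bw G cl a k j v).toList.map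
      (fun y => ((⟨0, hQ0⟩ : Fin Q), rk cl (a j) y)),
      fun z q r => q = ⟨0, hQ0⟩ ∧ ∃ y, cl y = a j ∧ rk cl (a j) y = r ∧
        Wk G cl a i (j - i) z y,
      fun z q => q = ⟨0, hQ0⟩ ∧ cl z = a i, (cls cl (a j)).card, ?_, ?_, ?_, ?_, ?_, ?_, ?_, ?_⟩
    · intro v y hy
      rw [List.mem_map] at hy
      obtain ⟨x, hx, rfl⟩ := hy
      rw [mem_toList, mem_bw] at hx
      exact rk_lt cl hx.cl_left
    · rintro z q r ⟨h5, y, -, -, h6⟩
      exact ⟨h5, h6.cl_left⟩
    · have := card_le_univ (cls cl (a j))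
      rw [Fintype.card_fin] at this
      omega
    · intro u
      simpa using (hfw u).trans (Nat.pow_le_pow_right ht h3)
    · intro v
      simpa using (hbw v).trans (Nat.pow_le_pow_right ht h4)
    · intro u v
      simp only [List.length_map, length_toList]
      have e1 := hfw u
      have e2 := hbw v
      have e3 := tpos (suf (fun l => a l + 1) k j)
      calc (fw G cl a i u).card * ((bw G cl a k j v).card + 1)
          ≤ t ^ pre (fun l => a l + 1) i * (2 * t ^ suf (fun l => a l + 1) k j) :=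
            Nat.mul_le_mul e1 (by omega)
        _ = 2 * t ^ (pre (fun l => a l + 1) i + suf (fun l => a l + 1) k j) := by
            rw [pow_add]; ring
        _ ≤ 2 * t ^ N := Nat.mul_le_mul_left _ (Nat.pow_le_pow_right ht h1)
    · have e1 : ∀ z : Fin n, ∑ q : Fin Q, (if q = ⟨0, hQ0⟩ ∧ cl z = a i then
          (cls cl (a j)).card else 0) = if cl z = a i then (cls cl (a j)).card else 0 := by
        intro z
        by_cases h : cl z = a i
        · simp [h]
        · simp [h]
      refine le_trans (le_of_eq (sum_congr rfl (fun z _ =>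
        (?_ : _ = if cl z = a i then (cls cl (a j)).card else 0)))) ?_
      · convert e1 z
      rw [← sum_filter, sum_const, smul_eq_mul]
      have e2 := class_card G cl hcl2 hA (a i)
      have e3 := class_card G cl hcl2 hA (a j)
      have e4 : (univ.filter (fun z => cl z = a i)) = cls cl (a i) := by
        ext z; rw [mem_cls]; simp
      have e4' : (univ.filter (fun z => cl z = a j)) = cls cl (a j) := by
        ext z; rw [mem_cls]; simp
      rw [e4] at e2 ⊢
      rw [e4'] at e3
      have e5 : ((cls cl (a i)).card * (cls cl (a j)).card) * t ^ s ≤ X * t ^ s := by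
        calc ((cls cl (a i)).card * (cls cl (a j)).card) * t ^ s
            ≤ ((cls cl (a i)).card * (cls cl (a j)).card) * t ^ (a i + a j) :=
              Nat.mul_le_mul_left _ (Nat.pow_le_pow_right ht h2)
          _ = ((cls cl (a i)).card * t ^ a i) * ((cls cl (a j)).card * t ^ a j) := by
              rw [pow_add]; ring
          _ ≤ A * A := Nat.mul_le_mul e2 e3
          _ ≤ X * t ^ s := hX2
      exact Nat.le_of_mul_le_mul_right e5 (tpos s)
    · intro u v
      constructor
      · rintro ⟨z, hz, y, hy, h5, x, h6, h7, h8⟩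
        rw [mem_toList, mem_fw] at hz
        rw [List.mem_map] at hy
        obtain ⟨x', h9, rfl⟩ := hy
        rw [mem_toList, mem_bw] at h9
        simp only at h7
        have h10 := rk_inj cl h6 h9.cl_left h7
        subst h10
        have e1 : k = j + (k - j) := by omega
        have e2 : j = i + (j - i) := by omega
        rw [e1, Wk.comp]
        refine ⟨x, ?_, by rw [zero_add]; exact h9⟩
        rw [e2, Wk.comp]
        exact ⟨z, hz, by rw [zero_add]; exact h8⟩
      · intro h
        have e1 : k = j + (k - j) := by omega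
        have e2 : j = i + (j - i) := by omega
        rw [e1, Wk.comp] at h
        obtain ⟨x, h5, h6⟩ := h
        rw [zero_add] at h6
        rw [e2, Wk.comp] at h5
        obtain ⟨z, h7, h8⟩ := h5
        rw [zero_add] at h8
        refine ⟨z, by rw [mem_toList, mem_fw]; exact h7, _,
          List.mem_map.2 ⟨x, by rw [mem_toList, mem_bw]; exact h6, rfl⟩, rfl, x, h6.cl_left, rfl, h8⟩

end

/-- **The data structure** for `k`-reachability with query time `O(t ^ N)` and space
`O(n² / t ^ s)`, if `(s + 1) (k + 1) < 4 (N + 1)` and `t` is small. -/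
theorem solves {n : ℕ} (G : Fin n → Fin n → Prop) (k N s t C₀ X w S : ℕ) (hn : 0 < n)
    (ht : 2 ≤ t) (hS : (s + 1) * (k + 1) < 4 * (N + 1))
    (hG : {e : Fin n × Fin n | G e.1 e.2}.ncard ≤ C₀ * n)
    (hX1 : n * (t ^ N * (n.sqrt + 1)) ≤ X)
    (hX2 : (2 * (C₀ + 1) * n) * (2 * (C₀ + 1) * n) ≤ X * t ^ s)
    (hsp : 3 + 2 * (n * (N + 1) ^ (k + 1)) + (n + 1) +
      (N + 1) ^ (k + 1) * (n * (2 + 3 * t ^ N) + n * (n.sqrt + 1) + X) ≤ S)
    (hw : 2 * S + 2 < 2 ^ w) {T : ℝ}
    (hT : (((N + 1) ^ (k + 1) * (13 * (2 * t ^ N) + 12) + 14 : ℕ) : ℝ) ≤ T) :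
    ∃ D : ℕ → ℕ, (∀ x, D x < 2 ^ w) ∧ (∀ x, S ≤ x → D x = 0) ∧
      ∀ u v : Fin n, HaltsWithin w prog (queryConfig D u v) T (ind (ReachLE G k u v)) := by
  classical
  set cl : Fin n → ℕ := fun x => min N (Nat.log t (dg G x)) with hcl
  have hcl1 : ∀ x, cl x < N → dg G x ≤ t ^ (cl x + 1) := by
    intro x hx
    have h1 : cl x = Nat.log t (dg G x) := by
      simp only [hcl] at hx ⊢
      omega
    rw [h1]
    exact (Nat.lt_pow_succ_log_self (by omega) _).le
  have hcl2 : ∀ x, t ^ cl x ≤ dg G x := by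
    intro x
    calc t ^ cl x ≤ t ^ Nat.log t (dg G x) :=
          Nat.pow_le_pow_right (by omega) (min_le_right _ _)
      _ ≤ dg G x := Nat.pow_log_le_self t (dg_pos G x).ne'
  have hA := sum_dg G C₀ hG
  set Q := n.sqrt + 1 with hQ
  set M := (N + 1) ^ (k + 1) with hM
  have hMpos : 0 < M := Nat.pow_pos (Nat.succ_pos _)
  have hQ1 : n ≤ Q * Q := (Nat.lt_succ_sqrt n).le
  have hQ3 : Q ≤ n + 1 := by
    have := Nat.sqrt_le_self n
    omega
  have hcard : Fintype.card (Fin (k + 1) → Fin (N + 1)) = M := by simp [hM]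
  let e : Fin M ≃ (Fin (k + 1) → Fin (N + 1)) := (Fintype.equivFinOfCardEq hcard).symm
  let a : Fin M → ℕ → ℕ := fun m l => if h : l < k + 1 then (e m ⟨l, h⟩ : ℕ) else 0
  have hloc := fun m : Fin M => local_scheme G cl k (a m) (by omega : 1 ≤ t) hcl1 hcl2 hA hS hQ1
    (Nat.succ_pos _) hQ3 hX1 hX2
  choose zs ys bit sup Rm c1 c2 c3 c4 c5 c6 c7 c8 using hloc
  have hlen : 3 + ∑ i, len zs ys sup Rm (n + 1) i ≤ S := by
    refine le_trans ?_ hsp
    rw [sum_len]
    have d1 : ∑ m : Fin M, ∑ u : Fin n, (1 + (zs m u).length) ≤ M * (n * (1 + t ^ N)) := by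
      calc _ ≤ ∑ m : Fin M, ∑ u : Fin n, (1 + t ^ N) :=
            sum_le_sum fun m _ => sum_le_sum fun u _ => Nat.add_le_add_left (c4 m u) _
        _ = _ := by simp
    have d2 : ∑ m : Fin M, ∑ u : Fin n, (1 + 2 * (ys m u).length) ≤
        M * (n * (1 + 2 * t ^ N)) := by
      calc _ ≤ ∑ m : Fin M, ∑ u : Fin n, (1 + 2 * t ^ N) :=
            sum_le_sum fun m _ => sum_le_sum fun u _ => by have := c5 m u; omega
        _ = _ := by simp
    have d3 : ∑ m : Fin M, ∑ z : Fin n, ∑ q : Fin Q, len zs ys sup Rm (n + 1) (iSl m z q) ≤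
        M * X := by
      calc _ ≤ ∑ m : Fin M, X := by
            apply sum_le_sum
            intro m _
            refine le_trans (le_of_eq ?_) (c7 m)
            apply sum_congr rfl
            intro z _
            apply sum_congr rfl
            intro q _
            rfl
        _ = _ := by simp
    have d4 : M * (n * (1 + t ^ N)) + (M * (n * (1 + 2 * t ^ N)) + (M * n * Q + M * X)) =
        M * (n * (2 + 3 * t ^ N) + n * Q + X) := by ring
    omega
  obtain ⟨D, hD1, hD2, hD3⟩ := structure_exists zs ys bit sup Rm (n + 1) hMpos hn c3 (by omega)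
    c1 c2 S (2 * t ^ N) w hlen c6 hw hT
  refine ⟨D, hD1, hD2, ?_⟩
  intro u v
  have hans : (∃ m, ∃ z ∈ zs m u, ∃ y ∈ ys m v, bit m z y.1 y.2) ↔ ReachLE G k u v := by
    rw [reach_iff, st_iff_wk (cl := cl)]
    constructor
    · rintro ⟨m, h⟩
      have h2 := (c8 m u v).1 h
      have h3 : ∃ b : ℕ → ℕ, Wk G cl b 0 k u v := ⟨_, h2⟩
      have h4 : St' G k u v := by
        have key : ∀ d, ∀ z, Wk G cl (a m) 0 d u z → St' G d u z := by
          intro d
          induction d with
          | zero => rintro z ⟨h4, h5⟩; exact h4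
          | succ d ihd =>
            rintro z ⟨w, h4, h5, h6⟩
            exact ⟨w, ihd w h4, h5⟩
        exact key k v h2
      exact (st_iff_wk G cl).1 h4
    · rintro ⟨b, hb, h⟩
      let f : Fin (k + 1) → Fin (N + 1) := fun l => ⟨b l, by
        obtain ⟨x, hx⟩ := hb l
        rw [hx]
        have : cl x ≤ N := min_le_left _ _
        omega⟩
      refine ⟨e.symm f, (c8 _ u v).2 (h.congr G cl ?_)⟩
      intro l _ hl
      show b l = if h : l < k + 1 then (e (e.symm f) ⟨l, h⟩ : ℕ) else 0
      rw [dif_pos (by omega), Equiv.apply_symm_apply]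
  rw [← ind_congr hans]
  exact hD3 u v

end Pool.Agent.W5h81.KR
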