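import Mathlib

/-!
# The choice of the strategy
-/

set_option autoImplicit false

namespace Pool.Agent.W5h81.KR

open Finset

/-- Sum of `f` over the layers before `i`. -/
def pre (f : ℕ → ℕ) (i : ℕ) : ℕ := ∑ l ∈ range i, f l

/-- Sum of `f` over the layers after `j`, up to layer `k`. -/
def suf (f : ℕ → ℕ) (k j : ℕ) : ℕ := ∑ l ∈ Ioc j k, f l

theorem pre_mono (f : ℕ → ℕ) {i j : ℕ} (h : i ≤ j) : pre f i ≤ pre f j :=
  sum_le_sum_of_subset (range_subset_range.2 h)

theorem suf_anti (f : ℕ → ℕ) (k : ℕ) {i j : ℕ} (h : i ≤ j) : suf f k j ≤ suf f k i :=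
  sum_le_sum_of_subset (Ioc_subset_Ioc_left h)

theorem pre_succ (f : ℕ → ℕ) (i : ℕ) : pre f (i + 1) = pre f i + f i := sum_range_succ _ _

theorem suf_pred (f : ℕ → ℕ) (k j : ℕ) (h : j < k) : suf f k j = f (j + 1) + suf f k (j + 1) := by
  unfold suf
  rw [← Finset.insert_Ioc_add_one_left_eq_Ioc h, sum_insert (by simp)]

/-- double counting -/
theorem sum_inv_le (f : ℕ → ℕ) (hf : ∀ l, 0 < f l) (N : ℕ) (c : ℕ → ℕ) (I : Finset ℕ)
    (hI : ∀ s ∈ range (N + 1), c s ∈ I)
    (hcard : ∀ i ∈ I, ((range (N + 1)).filter (fun s => c s = i)).card ≤ f i) :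
    ∑ s ∈ range (N + 1), (1 : ℚ) / f (c s) ≤ I.card := by
  rw [← sum_fiberwise_of_maps_to hI]
  calc ∑ j ∈ I, ∑ i ∈ range (N + 1) with c i = j, (1 : ℚ) / f (c i)
      = ∑ j ∈ I, ∑ i ∈ range (N + 1) with c i = j, (1 : ℚ) / f j := by
        apply sum_congr rfl
        intro j _
        apply sum_congr rfl
        intro i hi
        rw [(mem_filter.1 hi).2]
    _ ≤ ∑ j ∈ I, 1 := by
        apply sum_le_sum
        intro j hj
        rw [sum_const, nsmul_eq_mul]
        have h1 : (0 : ℚ) < f j := by exact_mod_cast hf j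
        have h2 : (((range (N + 1)).filter (fun s => c s = j)).card : ℚ) ≤ f j := by
          exact_mod_cast hcard j hj
        rw [mul_one_div, div_le_one h1]
        exact h2
    _ = I.card := by simp

/-- **Choice of the strategy.** -/
theorem strategy (k N S : ℕ) (a : ℕ → ℕ) (hS : (S + 1) * (k + 1) < 4 * (N + 1)) :
    (∃ i ≤ k, pre (fun l => a l + 1) i ≤ N ∧ suf (fun l => a l + 1) k i ≤ N) ∨
    ∃ i j, i < j ∧ j ≤ k ∧ pre (fun l => a l + 1) i + suf (fun l => a l + 1) k j ≤ N ∧
      S ≤ a i + a j := by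
  classical
  set f : ℕ → ℕ := fun l => a l + 1 with hf
  have hfpos : ∀ l, 0 < f l := fun l => Nat.succ_pos _
  by_contra hcon
  rw [not_or] at hcon
  obtain ⟨hA, hB⟩ := hcon
  have hA' : ∀ i ≤ k, pre f i ≤ N → N < suf f k i := by
    intro i hi h
    by_contra h2
    exact hA ⟨i, hi, h, not_lt.1 h2⟩
  have hB' : ∀ i j, i < j → j ≤ k → pre f i + suf f k j ≤ N → a i + a j < S := by
    intro i j h1 h2 h3
    by_contra h4
    exact hB ⟨i, j, h1, h2, h3, not_lt.1 h4⟩
  -- the index on the left
  let ci : ℕ → ℕ := fun s => Nat.findGreatest (fun i => pre f i ≤ s) k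
  -- the index on the right
  let cj' : ℕ → ℕ := fun s => Nat.findGreatest (fun i => suf f k (k - i) ≤ N - s) k
  let cj : ℕ → ℕ := fun s => k - cj' s
  have hci : ∀ s, pre f (ci s) ≤ s := by
    intro s
    exact Nat.findGreatest_spec (P := fun i => pre f i ≤ s) (Nat.zero_le k)
      (by show pre f 0 ≤ s; simp [pre])
  have hcik : ∀ s, ci s ≤ k := fun s => Nat.findGreatest_le _
  have hcj : ∀ s, suf f k (cj s) ≤ N - s := by
    intro s
    exact Nat.findGreatest_spec (P := fun i => suf f k (k - i) ≤ N - s) (Nat.zero_le k)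
      (by show suf f k (k - 0) ≤ N - s; simp [suf])
  have hcjk' : ∀ s, cj' s ≤ k := fun s => Nat.findGreatest_le _
  have hcjk : ∀ s, cj s ≤ k := fun s => Nat.sub_le _ _
  have hci2 : ∀ s, ci s < k → s < pre f (ci s + 1) := by
    intro s h
    by_contra h2
    have := Nat.le_findGreatest (P := fun i => pre f i ≤ s) (n := k) (m := ci s + 1) (by omega)
      (not_lt.1 h2)
    have h3 : Nat.findGreatest (fun i => pre f i ≤ s) k = ci s := rfl
    omega
  have hcj2 : ∀ s, 0 < cj s → N - s < suf f k (cj s - 1) := by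
    intro s h
    by_contra h2
    have h4 : k - (cj' s + 1) = cj s - 1 := by
      show k - (cj' s + 1) = k - cj' s - 1
      omega
    have := Nat.le_findGreatest (P := fun i => suf f k (k - i) ≤ N - s) (n := k) (m := cj' s + 1)
      (by
        have : cj s = k - cj' s := rfl
        omega)
      (by rw [h4]; exact not_lt.1 h2)
    have h3 : Nat.findGreatest (fun i => suf f k (k - i) ≤ N - s) k = cj' s := rfl
    omega
  have hlt : ∀ s s', s ≤ N → ci s < cj s' := by
    intro s s' hs
    by_contra h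
    rw [not_lt] at h
    have h1 := hA' (ci s) (hcik s) ((hci s).trans hs)
    have h2 := suf_anti f k h
    have h3 := hcj s'
    omega
  -- monotonicity
  have hmono : ∀ s s', s ≤ s' → ci s ≤ ci s' := by
    intro s s' h
    exact Nat.findGreatest_mono_left (fun i hi => le_trans hi h) k
  have hmonoj : ∀ s, cj 0 ≤ cj s := by
    intro s
    have : cj' s ≤ cj' 0 :=
      Nat.findGreatest_mono_left (fun i hi => le_trans hi (Nat.sub_le_sub_left (Nat.zero_le s) N)) k
    show k - cj' 0 ≤ k - cj' s
    omega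
  set p := ci N with hp
  set q := cj 0 with hq
  have hpq : p < q := hlt N 0 le_rfl
  have hqk : q ≤ k := hcjk 0
  have h1 : ∑ s ∈ range (N + 1), (1 : ℚ) / f (ci s) ≤ (range (p + 1)).card := by
    apply sum_inv_le f hfpos N ci
    · intro s hs
      rw [mem_range] at *
      have := hmono s N (by omega)
      omega
    · intro i hi
      have hsub : (range (N + 1)).filter (fun s => ci s = i) ⊆ Ico (pre f i) (pre f (i + 1)) := by
        intro s hs
        rw [mem_filter, mem_range] at hs
        obtain ⟨h1, h2⟩ := hs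
        rw [mem_Ico]
        have h3 := hci s
        have h4 := hci2 s (by have := hlt s 0 (by omega); have := hcjk 0; omega)
        rw [h2] at h3 h4
        exact ⟨h3, h4⟩
      calc _ ≤ (Ico (pre f i) (pre f (i + 1))).card := card_le_card hsub
        _ = f i := by rw [Nat.card_Ico, pre_succ]; omega
  have h2 : ∑ s ∈ range (N + 1), (1 : ℚ) / f (cj s) ≤ (Icc q k).card := by
    apply sum_inv_le f hfpos N cj
    · intro s hs
      rw [mem_Icc]
      exact ⟨hmonoj s, hcjk s⟩
    · intro j hj
      have hj0 : 0 < j := by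
        rw [mem_Icc] at hj
        omega
      have hsub : ((range (N + 1)).filter (fun s => cj s = j)).image (fun s => N - s) ⊆
          Ico (suf f k j) (suf f k (j - 1)) := by
        intro x hx
        rw [mem_image] at hx
        obtain ⟨s, hs, rfl⟩ := hx
        rw [mem_filter, mem_range] at hs
        obtain ⟨h1, h2⟩ := hs
        rw [mem_Ico]
        have h3 := hcj s
        have h4 := hcj2 s (by omega)
        rw [h2] at h3 h4
        exact ⟨h3, h4⟩
      have hinj : Set.InjOn (fun s => N - s) ((range (N + 1)).filter (fun s => cj s = j) : Set ℕ) := by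
        intro x hx y hy hxy
        simp only [coe_filter, mem_range, Set.mem_ofPred_eq] at hx hy
        simp only at hxy
        omega
      rw [← card_image_of_injOn hinj]
      have hjk : j ≤ k := (mem_Icc.1 hj).2
      calc _ ≤ (Ico (suf f k j) (suf f k (j - 1))).card := card_le_card hsub
        _ = f j := by
          rw [Nat.card_Ico, suf_pred f k (j - 1) (by omega)]
          have : j - 1 + 1 = j := by omega
          rw [this]
          omega
  have h3 : (N + 1 : ℚ) * (4 / (S + 1)) ≤ ∑ s ∈ range (N + 1), ((1 : ℚ) / f (ci s) + 1 / f (cj s)) := by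
    have : (N + 1 : ℚ) * (4 / (S + 1)) = ∑ s ∈ range (N + 1), (4 / ((S : ℚ) + 1)) := by
      rw [sum_const, card_range, nsmul_eq_mul]
      push_cast
      ring
    rw [this]
    apply sum_le_sum
    intro s hs
    rw [mem_range] at hs
    have h4 := hB' (ci s) (cj s) (hlt s s (by omega)) (hcjk s) (by
      have := hci s
      have := hcj s
      omega)
    have h5 : f (ci s) + f (cj s) ≤ S + 1 := by
      show a (ci s) + 1 + (a (cj s) + 1) ≤ S + 1
      omega
    have x1 : (0 : ℚ) < f (ci s) := by exact_mod_cast hfpos _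
    have x2 : (0 : ℚ) < f (cj s) := by exact_mod_cast hfpos _
    have h6 : (f (ci s) : ℚ) + f (cj s) ≤ S + 1 := by exact_mod_cast h5
    have h7 : (4 : ℚ) / (S + 1) ≤ 4 / (f (ci s) + f (cj s)) := by
      apply div_le_div_of_nonneg_left (by norm_num) (by positivity) h6
    refine h7.trans ?_
    rw [div_add_div _ _ x1.ne' x2.ne', div_le_div_iff₀ (by positivity) (by positivity)]
    nlinarith [sq_nonneg ((f (ci s) : ℚ) - f (cj s))]
  rw [sum_add_distrib] at h3
  have h4 : ((range (p + 1)).card : ℚ) + (Icc q k).card ≤ k + 1 := by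
    rw [card_range, Nat.card_Icc]
    have : p + 1 + (k + 1 - q) ≤ k + 1 := by omega
    exact_mod_cast this
  have h5 : (N + 1 : ℚ) * (4 / (S + 1)) ≤ k + 1 := by linarith
  have h6 : (0 : ℚ) < (S : ℚ) + 1 := by positivity
  have h7 : (4 * (N + 1) : ℚ) ≤ (S + 1) * (k + 1) := by
    rw [mul_div_assoc', div_le_iff₀ h6] at h5
    linarith
  have h8 : 4 * (N + 1) ≤ (S + 1) * (k + 1) := by exact_mod_cast h7
  omega

end Pool.Agent.W5h81.KR
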