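import Pool.Agent.W5h81.KR.Mem
import Pool.Agent.W5h81.KR.Comb

/-!
# The combinatorial part of the reachability data structure
-/

set_option autoImplicit false

namespace Pool.Agent.W5h81.KR

open Finset Pool.Agent.H588R2

/-- There is a directed walk (equivalently, a directed path) from `u` to `v` with at most `k`
edges. -/
def ReachLE {n : ℕ} (G : Fin n → Fin n → Prop) (k : ℕ) (u v : Fin n) : Prop :=
  ∃ l ≤ k, ∃ p : ℕ → Fin n, p 0 = u ∧ p l = v ∧ ∀ i < l, G (p i) (p (i + 1))

section
variable {n : ℕ} (G : Fin n → Fin n → Prop)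

/-- edges and loops -/
def EL (x y : Fin n) : Prop := x = y ∨ G x y

/-- `d` steps along edges and loops -/
def St' (G : Fin n → Fin n → Prop) : ℕ → Fin n → Fin n → Prop
  | 0, x, y => x = y
  | d + 1, x, y => ∃ z, St' G d x z ∧ EL G z y

theorem reach_of_st {d : ℕ} {x y : Fin n} (h : St' G d x y) : ReachLE G d x y := by
  induction d generalizing y with
  | zero =>
    have h' : x = y := h
    exact ⟨0, le_rfl, fun _ => x, rfl, h', fun i hi => absurd hi (Nat.not_lt_zero i)⟩
  | succ d ih =>
    obtain ⟨z, h1, h2⟩ := h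
    obtain ⟨l, hl, p, hp0, hpl, hp⟩ := ih h1
    rcases h2 with h2 | h2
    · subst h2
      exact ⟨l, by omega, p, hp0, hpl, hp⟩
    · refine ⟨l + 1, by omega, fun i => if i ≤ l then p i else y, by simp [hp0], by simp, ?_⟩
      intro i hi
      rcases Nat.lt_or_eq_of_le (Nat.le_of_lt_succ hi) with h3 | h3
      · show G (if i ≤ l then p i else y) (if i + 1 ≤ l then p (i + 1) else y)
        rw [if_pos (by omega), if_pos (by omega)]
        exact hp i h3
      · subst h3
        show G (if i ≤ i then p i else y) (if i + 1 ≤ i then p (i + 1) else y)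
        rw [if_pos le_rfl, if_neg (by omega), hpl]
        exact h2

theorem st_of_walk {l : ℕ} (p : ℕ → Fin n) (hp : ∀ i < l, G (p i) (p (i + 1))) :
    St' G l (p 0) (p l) := by
  induction l with
  | zero => exact rfl
  | succ l ih => exact ⟨p l, ih (fun i hi => hp i (by omega)), Or.inr (hp l (by omega))⟩

theorem st_mono {d e : ℕ} (hde : d ≤ e) {x y : Fin n} (h : St' G d x y) : St' G e x y := by
  induction e, hde using Nat.le_induction with
  | base => exact h
  | succ e _ ih => exact ⟨y, ih, Or.inl rfl⟩

theorem reach_iff {k : ℕ} {x y : Fin n} : ReachLE G k x y ↔ St' G k x y := by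
  constructor
  · rintro ⟨l, hl, p, rfl, rfl, hp⟩
    exact st_mono G hl (st_of_walk G p hp)
  · exact reach_of_st G

variable (cl : Fin n → ℕ) (a : ℕ → ℕ)

/-- walks whose vertices are in prescribed classes: `d` steps from layer `i` -/
def Wk (G : Fin n → Fin n → Prop) (cl : Fin n → ℕ) (a : ℕ → ℕ) (i : ℕ) :
    ℕ → Fin n → Fin n → Prop
  | 0, x, y => x = y ∧ cl x = a i
  | d + 1, x, y => ∃ z, Wk G cl a i d x z ∧ EL G z y ∧ cl y = a (i + d + 1)

theorem Wk.cl_left {i d : ℕ} {x y : Fin n} (h : Wk G cl a i d x y) : cl x = a i := by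
  induction d generalizing y with
  | zero => exact h.2
  | succ d ih => exact ih h.choose_spec.1

theorem Wk.cl_right {i d : ℕ} {x y : Fin n} (h : Wk G cl a i d x y) : cl y = a (i + d) := by
  cases d with
  | zero => obtain ⟨h1, h2⟩ := h; rw [← h1]; exact h2
  | succ d => exact h.choose_spec.2.2

theorem Wk.comp {i d e : ℕ} {x z : Fin n} :
    Wk G cl a i (d + e) x z ↔ ∃ y, Wk G cl a i d x y ∧ Wk G cl a (i + d) e y z := by
  induction e generalizing z with
  | zero =>
    constructor
    · intro h
      exact ⟨z, h, rfl, h.cl_right⟩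
    · rintro ⟨y, h1, h2, h3⟩
      subst h2
      exact h1
  | succ e ih =>
    constructor
    · rintro ⟨w, h1, h2, h3⟩
      obtain ⟨y, h4, h5⟩ := ih.1 h1
      exact ⟨y, h4, w, h5, h2, by
        rw [h3]; exact congrArg a (by show i + (d + e) + 1 = i + d + e + 1; omega)⟩
    · rintro ⟨y, h1, w, h2, h3, h4⟩
      exact ⟨w, ih.2 ⟨y, h1, h2⟩, h3, by
        rw [h4]; exact congrArg a (by show i + d + e + 1 = i + (d + e) + 1; omega)⟩

theorem Wk.one {i : ℕ} {x y : Fin n} :
    Wk G cl a i 1 x y ↔ cl x = a i ∧ EL G x y ∧ cl y = a (i + 1) := by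
  constructor
  · rintro ⟨z, ⟨h1, h2⟩, h3, h4⟩
    subst h1
    exact ⟨h2, h3, h4⟩
  · rintro ⟨h1, h2, h3⟩
    exact ⟨x, ⟨rfl, h1⟩, h2, h3⟩

theorem st_iff_wk {k : ℕ} {u v : Fin n} :
    St' G k u v ↔ ∃ a : ℕ → ℕ, (∀ l, ∃ x, a l = cl x) ∧ Wk G cl a 0 k u v := by
  constructor
  · intro h
    induction k generalizing v with
    | zero =>
      have h' : u = v := h
      exact ⟨fun _ => cl u, fun _ => ⟨u, rfl⟩, h', rfl⟩
    | succ k ih =>
      obtain ⟨z, h1, h2⟩ := h
      obtain ⟨a, ha, h3⟩ := ih h1
      refine ⟨fun l => if l ≤ k then a l else cl v, ?_, z, ?_, h2, ?_⟩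
      · intro l
        by_cases hl : l ≤ k
        · simp only [if_pos hl]; exact ha l
        · simp only [if_neg hl]; exact ⟨v, rfl⟩
      · have key : ∀ d ≤ k, ∀ z, Wk G cl a 0 d u z →
            Wk G cl (fun l => if l ≤ k then a l else cl v) 0 d u z := by
          intro d
          induction d with
          | zero =>
            rintro _ z ⟨h4, h5⟩
            exact ⟨h4, by simp [h5]⟩
          | succ d ihd =>
            rintro hd z ⟨w, h4, h5, h6⟩
            refine ⟨w, ihd (by omega) w h4, h5, ?_⟩
            show cl z = if 0 + d + 1 ≤ k then a (0 + d + 1) else cl v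
            rw [if_pos (by omega)]
            exact h6
        exact key k le_rfl z h3
      · show cl v = if 0 + k + 1 ≤ k then a (0 + k + 1) else cl v
        rw [if_neg (by omega)]
  · rintro ⟨a, -, h⟩
    have key : ∀ d, ∀ z, Wk G cl a 0 d u z → St' G d u z := by
      intro d
      induction d with
      | zero => rintro z ⟨h4, h5⟩; exact h4
      | succ d ihd =>
        rintro z ⟨w, h4, h5, h6⟩
        exact ⟨w, ihd w h4, h5⟩
    exact key k v h

theorem Wk.congr {a b : ℕ → ℕ} {i d : ℕ} (h : ∀ l, i ≤ l → l ≤ i + d → a l = b l) {x y : Fin n}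
    (hw : Wk G cl a i d x y) : Wk G cl b i d x y := by
  induction d generalizing y with
  | zero => exact ⟨hw.1, by rw [hw.2]; exact h i le_rfl (by omega)⟩
  | succ d ih =>
    obtain ⟨z, h1, h2, h3⟩ := hw
    exact ⟨z, ih (fun l h4 h5 => h l h4 (by omega)) h1, h2, by
      rw [h3]; exact h _ (by omega) (by omega)⟩

open Classical in
/-- vertices reached from `u` after `i` steps -/
noncomputable def fw (i : ℕ) (u : Fin n) : Finset (Fin n) :=
  univ.filter (fun x => Wk G cl a 0 i u x)

open Classical in
/-- vertices of layer `j` from which `v` is reached in the remaining steps -/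
noncomputable def bw (k j : ℕ) (v : Fin n) : Finset (Fin n) :=
  univ.filter (fun x => Wk G cl a j (k - j) x v)

open Classical in
/-- out-neighbours, with loops -/
noncomputable def outN (x : Fin n) : Finset (Fin n) := univ.filter (fun y => EL G x y)

open Classical in
/-- in-neighbours, with loops -/
noncomputable def inN (y : Fin n) : Finset (Fin n) := univ.filter (fun x => EL G x y)

theorem mem_outN {x y : Fin n} : y ∈ outN G x ↔ EL G x y := by
  classical
  unfold outN
  rw [mem_filter]
  exact ⟨fun h => h.2, fun h => ⟨mem_univ _, h⟩⟩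

theorem mem_inN {x y : Fin n} : x ∈ inN G y ↔ EL G x y := by
  classical
  unfold inN
  rw [mem_filter]
  exact ⟨fun h => h.2, fun h => ⟨mem_univ _, h⟩⟩

/-- the larger degree -/
noncomputable def dg (x : Fin n) : ℕ := max (outN G x).card (inN G x).card

theorem dg_pos (x : Fin n) : 0 < dg G x := by
  have : x ∈ outN G x := (mem_outN G).2 (Or.inl rfl)
  have h1 := card_pos.2 ⟨x, this⟩
  unfold dg
  omega

theorem fw_card {t L N : ℕ} (hcl : ∀ x, cl x < L → dg G x ≤ t ^ (cl x + 1))
    (hL : N ≤ L) (i : ℕ) (hi : pre (fun l => a l + 1) i ≤ N) (u : Fin n) :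
    (fw G cl a i u).card ≤ t ^ pre (fun l => a l + 1) i := by
  classical
  induction i with
  | zero =>
    have h1 : fw G cl a 0 u ⊆ {u} := by
      intro x hx
      unfold fw at hx
      rw [mem_filter] at hx
      rw [mem_singleton]
      exact hx.2.1.symm
    simpa [pre] using card_le_card h1
  | succ i ih =>
    have hpre := pre_succ (fun l => a l + 1) i
    have h0 : pre (fun l => a l + 1) i ≤ N := by omega
    have h1 : fw G cl a (i + 1) u ⊆ (fw G cl a i u).biUnion (outN G) := by
      intro x hx
      unfold fw at hx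
      rw [mem_filter] at hx
      obtain ⟨z, h2, h3, h4⟩ := hx.2
      rw [mem_biUnion]
      refine ⟨z, ?_, ?_⟩
      · unfold fw
        rw [mem_filter]
        exact ⟨mem_univ _, h2⟩
      · exact (mem_outN G).2 h3
    calc (fw G cl a (i + 1) u).card ≤ ((fw G cl a i u).biUnion (outN G)).card := card_le_card h1
      _ ≤ (fw G cl a i u).card * t ^ (a i + 1) := by
          apply card_biUnion_le_card_mul
          intro x hx
          unfold fw at hx
          rw [mem_filter] at hx
          have h2 : cl x = a (0 + i) := hx.2.cl_right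
          rw [zero_add] at h2
          have h3 : cl x < L := by rw [h2]; omega
          have h4 := hcl x h3
          rw [h2] at h4
          exact le_trans (le_max_left _ _) h4
      _ ≤ t ^ pre (fun l => a l + 1) i * t ^ (a i + 1) := Nat.mul_le_mul_right _ (ih h0)
      _ = t ^ pre (fun l => a l + 1) (i + 1) := by rw [← pow_add, hpre]

theorem bw_card {t L N : ℕ} (hcl : ∀ x, cl x < L → dg G x ≤ t ^ (cl x + 1))
    (hL : N ≤ L) (k : ℕ) (e : ℕ) : ∀ j, j + e = k → suf (fun l => a l + 1) k j ≤ N →
    ∀ v : Fin n, (bw G cl a k j v).card ≤ t ^ suf (fun l => a l + 1) k j := by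
  classical
  induction e with
  | zero =>
    intro j hj _ v
    have hjk : j = k := by omega
    subst hjk
    have h1 : bw G cl a j j v ⊆ {v} := by
      intro x hx
      unfold bw at hx
      rw [mem_filter, Nat.sub_self] at hx
      rw [mem_singleton]
      exact hx.2.1
    simpa [suf] using card_le_card h1
  | succ e ih =>
    intro j hj hN v
    have hsuf := suf_pred (fun l => a l + 1) k j (by omega)
    have h0 : suf (fun l => a l + 1) k (j + 1) ≤ N := by omega
    have h1 : bw G cl a k j v ⊆ (bw G cl a k (j + 1) v).biUnion (inN G) := by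
      intro x hx
      unfold bw at hx
      rw [mem_filter] at hx
      have h2 : k - j = 1 + (k - (j + 1)) := by omega
      have hx2 := hx.2
      rw [h2, Wk.comp] at hx2
      obtain ⟨y, h3, h4⟩ := hx2
      rw [Wk.one] at h3
      rw [mem_biUnion]
      refine ⟨y, ?_, ?_⟩
      · unfold bw
        rw [mem_filter]
        exact ⟨mem_univ _, h4⟩
      · exact (mem_inN G).2 h3.2.1
    calc (bw G cl a k j v).card ≤ ((bw G cl a k (j + 1) v).biUnion (inN G)).card := card_le_card h1
      _ ≤ (bw G cl a k (j + 1) v).card * t ^ (a (j + 1) + 1) := by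
          apply card_biUnion_le_card_mul
          intro x hx
          unfold bw at hx
          rw [mem_filter] at hx
          have h2 : cl x = a (j + 1) := hx.2.cl_left
          have h3 : cl x < L := by rw [h2]; omega
          have h4 := hcl x h3
          rw [h2] at h4
          exact le_trans (le_max_right _ _) h4
      _ ≤ t ^ suf (fun l => a l + 1) k (j + 1) * t ^ (a (j + 1) + 1) :=
          Nat.mul_le_mul_right _ (ih (j + 1) (by omega) h0 v)
      _ = t ^ suf (fun l => a l + 1) k j := by
          rw [← pow_add, hsuf]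
          congr 1
          ring

open Classical in
/-- the number of vertices of a class -/
theorem class_card {t A : ℕ} (hcl : ∀ x, t ^ cl x ≤ dg G x)
    (hA : ∑ x, dg G x ≤ A) (c : ℕ) :
    (univ.filter (fun x => cl x = c)).card * t ^ c ≤ A := by
  calc (univ.filter (fun x => cl x = c)).card * t ^ c
      = ∑ x ∈ univ.filter (fun x => cl x = c), t ^ c := by rw [sum_const, smul_eq_mul]
    _ ≤ ∑ x ∈ univ.filter (fun x => cl x = c), dg G x := by
        apply sum_le_sum
        intro x hx
        have := hcl x
        rw [(mem_filter.1 hx).2] at this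
        exact this
    _ ≤ ∑ x, dg G x := sum_le_sum_of_subset (filter_subset _ _)
    _ ≤ A := hA

theorem sum_dg (C₀ : ℕ) (hG : {e : Fin n × Fin n | G e.1 e.2}.ncard ≤ C₀ * n) :
    ∑ x, dg G x ≤ 2 * (C₀ + 1) * n := by
  classical
  have h1 : ∑ x, (outN G x).card ≤ (C₀ + 1) * n := by
    have h2 : ∀ x, (outN G x).card ≤ 1 + (univ.filter (fun y => G x y)).card := by
      intro x
      have : outN G x ⊆ {x} ∪ univ.filter (fun y => G x y) := by
        intro y hy
        rw [mem_union, mem_singleton, mem_filter]
        rcases (mem_outN G).1 hy with h | h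
        · exact Or.inl h.symm
        · exact Or.inr ⟨mem_univ _, h⟩
      refine (card_le_card this).trans ((card_union_le _ _).trans ?_)
      rw [card_singleton]
    have h3 : ∑ x, (univ.filter (fun y => G x y)).card = {e : Fin n × Fin n | G e.1 e.2}.ncard := by
      rw [Set.ncard_eq_toFinset_card' , Set.toFinset_ofPred]
      rw [card_filter, Fintype.sum_prod_type]
      apply sum_congr rfl
      intro x _
      rw [card_filter]
    calc ∑ x, (outN G x).card ≤ ∑ x : Fin n, (1 + (univ.filter (fun y => G x y)).card) :=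
          sum_le_sum (fun x _ => h2 x)
      _ = n + {e : Fin n × Fin n | G e.1 e.2}.ncard := by
          rw [sum_add_distrib, h3]; simp
      _ ≤ n + C₀ * n := Nat.add_le_add_left hG n
      _ = (C₀ + 1) * n := by ring
  have h2 : ∑ x, (inN G x).card ≤ (C₀ + 1) * n := by
    have h3 : ∑ x, (inN G x).card = ∑ x, (outN G x).card := by
      unfold inN outN
      simp only [card_filter]
      rw [sum_comm]
    rw [h3]
    exact h1
  calc ∑ x, dg G x ≤ ∑ x, ((outN G x).card + (inN G x).card) := by
        apply sum_le_sum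
        intro x _
        unfold dg
        omega
    _ ≤ 2 * (C₀ + 1) * n := by
        rw [sum_add_distrib]
        linarith

end

end Pool.Agent.W5h81.KR
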