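import Pool.Agent.W5h81.KR.Prog

/-!
# Memory layout of the reachability data structure
-/

set_option autoImplicit false

namespace Pool.Agent.W5h81.KR

open Pool.Agent.H588R2 Finset

/-- Disjoint blocks of memory of prescribed lengths, after the first three cells. -/
theorem alloc_base {ι : Type} [Fintype ι] (len : ι → ℕ) :
    ∃ base : ι → ℕ, (∀ i, 3 ≤ base i) ∧ (∀ i, base i + len i ≤ 3 + ∑ i, len i) ∧
      ∀ i j o o', o < len i → o' < len j → base i + o = base j + o' → i = j ∧ o = o' := by
  classical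
  obtain ⟨e⟩ : Nonempty (ι ≃ Fin (Fintype.card ι)) := ⟨Fintype.equivFin ι⟩
  set N := Fintype.card ι with hN
  set l : Fin N → ℕ := fun k => len (e.symm k) with hl
  have hsum : ∑ k, l k = ∑ i, len i := by
    rw [hl]
    exact Equiv.sum_comp e.symm len
  let pre : Fin N → ℕ := fun k => ∑ i : Fin k.val, l (Fin.castLE k.2.le i)
  have hpre : ∀ (k : Fin N) (o : ℕ) (ho : o < l k),
      pre k + o = (finSigmaFinEquiv (⟨k, ⟨o, ho⟩⟩ : (i : Fin N) × Fin (l i)) : ℕ) := by
    intro k o ho
    rw [finSigmaFinEquiv_apply]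
  have hmono : ∀ k : Fin N, pre k + l k ≤ ∑ k, l k := by
    intro k
    have h1 : pre k = ∑ i ∈ range k.val, (if h : i < N then l ⟨i, h⟩ else 0) := by
      show ∑ i : Fin k.val, l (Fin.castLE k.2.le i) = _
      rw [← Fin.sum_univ_eq_sum_range (fun i => if h : i < N then l ⟨i, h⟩ else 0) k.val]
      apply sum_congr rfl
      intro i _
      rw [dif_pos (lt_trans i.2 k.2)]
      rfl
    have h2 : ∑ k, l k = ∑ i ∈ range N, (if h : i < N then l ⟨i, h⟩ else 0) := by
      rw [← Fin.sum_univ_eq_sum_range (fun i => if h : i < N then l ⟨i, h⟩ else 0) N]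
      apply sum_congr rfl
      intro i _
      rw [dif_pos i.2]
    have h3 : pre k + l k = ∑ i ∈ range (k.val + 1), (if h : i < N then l ⟨i, h⟩ else 0) := by
      rw [sum_range_succ, h1, dif_pos k.2]
    rw [h3, h2]
    apply sum_le_sum_of_subset
    intro x hx
    rw [mem_range] at *
    have := k.2
    omega
  refine ⟨fun i => 3 + pre (e i), fun i => Nat.le_add_right _ _, ?_, ?_⟩
  · intro i
    have := hmono (e i)
    have h4 : l (e i) = len i := by simp [hl]
    rw [h4, hsum] at this
    show 3 + pre (e i) + len i ≤ _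
    omega
  · intro i j o o' ho ho' h
    replace h : 3 + pre (e i) + o = 3 + pre (e j) + o' := h
    have h4 : l (e i) = len i := by simp [hl]
    have h5 : l (e j) = len j := by simp [hl]
    have h6 := hpre (e i) o (by rw [h4]; exact ho)
    have h7 := hpre (e j) o' (by rw [h5]; exact ho')
    have h8 : finSigmaFinEquiv (⟨e i, ⟨o, by rw [h4]; exact ho⟩⟩ : (i : Fin N) × Fin (l i)) =
        finSigmaFinEquiv (⟨e j, ⟨o', by rw [h5]; exact ho'⟩⟩ : (i : Fin N) × Fin (l i)) := by
      apply Fin.ext
      rw [← h6, ← h7]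
      omega
    have h9 := finSigmaFinEquiv.injective h8
    have h10 : e i = e j := congrArg Sigma.fst h9
    refine ⟨e.injective h10, ?_⟩
    have h11 : i = j := e.injective h10
    subst h11
    omega

/-- A memory content with prescribed blocks. -/
theorem alloc {ι : Type} [Fintype ι] (len : ι → ℕ) (val : (ι → ℕ) → ι → ℕ → ℕ)
    (hd : (ι → ℕ) → ℕ → ℕ) (Bd : ℕ)
    (hval : ∀ base : ι → ℕ, (∀ i, base i + len i ≤ 3 + ∑ i, len i) →
      (∀ i o, o < len i → val base i o ≤ Bd) ∧ ∀ i, hd base i ≤ Bd) :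
    ∃ (base : ι → ℕ) (D : ℕ → ℕ), (∀ i, base i + len i ≤ 3 + ∑ i, len i) ∧
      (∀ i, i < 3 → D i = hd base i) ∧ (∀ i o, o < len i → D (base i + o) = val base i o) ∧
      (∀ x, 3 + ∑ i, len i ≤ x → D x = 0) ∧ ∀ x, D x ≤ Bd := by
  classical
  obtain ⟨base, h3, hle, hinj⟩ := alloc_base len
  let D : ℕ → ℕ := fun x => if x < 3 then hd base x else
    if h : ∃ p : ι × ℕ, p.2 < len p.1 ∧ base p.1 + p.2 = x then
      val base h.choose.1 h.choose.2 else 0
  refine ⟨base, D, hle, ?_, ?_, ?_, ?_⟩
  · intro i hi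
    show (if i < 3 then hd base i else _) = _
    rw [if_pos hi]
  · intro i o ho
    have h1 : ¬ base i + o < 3 := by
      have := h3 i
      omega
    have h2 : ∃ p : ι × ℕ, p.2 < len p.1 ∧ base p.1 + p.2 = base i + o := ⟨(i, o), ho, rfl⟩
    show (if base i + o < 3 then hd base _ else _) = _
    rw [if_neg h1, dif_pos h2]
    obtain ⟨h4, h5⟩ := h2.choose_spec
    obtain ⟨h6, h7⟩ := hinj _ _ _ _ h4 ho h5
    rw [h6, h7]
  · intro x hx
    show (if x < 3 then hd base x else _) = _
    rw [if_neg (by omega), dif_neg]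
    rintro ⟨p, hp, rfl⟩
    have := hle p.1
    omega
  · intro x
    show (if x < 3 then hd base x else _) ≤ _
    split_ifs with h h2
    · exact (hval base hle).2 x
    · exact (hval base hle).1 _ _ h2.choose_spec.1
    · exact Nat.zero_le _

/-- The blocks. -/
abbrev Ix (M n Q : ℕ) : Type :=
  Fin 3 ⊕ ((Fin M × Fin n) ⊕ ((Fin M × Fin n) ⊕ ((Fin M × Fin n) ⊕ (Fin M × Fin n × Fin Q))))

section
variable {M n Q : ℕ}

def iUl (m : Fin M) (u : Fin n) : Ix M n Q := .inr (.inl (m, u))
def iVl (m : Fin M) (v : Fin n) : Ix M n Q := .inr (.inr (.inl (m, v)))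
def iFl (m : Fin M) (z : Fin n) : Ix M n Q := .inr (.inr (.inr (.inl (m, z))))
def iSl (m : Fin M) (z : Fin n) (q : Fin Q) : Ix M n Q := .inr (.inr (.inr (.inr (m, z, q))))
def iUd : Ix M n Q := .inl 0
def iVd : Ix M n Q := .inl 1
def iZr : Ix M n Q := .inl 2

variable (zs : Fin M → Fin n → List (Fin n)) (ys : Fin M → Fin n → List (Fin Q × ℕ))
  (bit : Fin M → Fin n → Fin Q → ℕ → Prop) (sup : Fin M → Fin n → Fin Q → Prop)
  (Rm : Fin M → ℕ) (R : ℕ)

open Classical in
/-- lengths of the blocks -/
noncomputable def len : Ix M n Q → ℕ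
  | .inl i => if i = 2 then R else n * M
  | .inr (.inl (m, u)) => 1 + (zs m u).length
  | .inr (.inr (.inl (m, v))) => 1 + 2 * (ys m v).length
  | .inr (.inr (.inr (.inl _))) => Q
  | .inr (.inr (.inr (.inr (m, z, q)))) => if sup m z q then Rm m else 0

/-- an index of a natural number, if possible -/
def getB {k l : ℕ} (f : Fin k → Fin l → ℕ) (a b : ℕ) : ℕ :=
  if h : a < k ∧ b < l then f ⟨a, h.1⟩ ⟨b, h.2⟩ else 0

theorem getB_eq {k l : ℕ} (f : Fin k → Fin l → ℕ) (a : Fin k) (b : Fin l) :
    getB f a b = f a b := by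
  unfold getB
  rw [dif_pos ⟨a.2, b.2⟩]

open Classical in
/-- contents of the blocks -/
noncomputable def val (base : Ix M n Q → ℕ) : Ix M n Q → ℕ → ℕ
  | .inl i, o =>
      if i = 0 then getB (fun m u => base (iUl m u)) (o % M) (o / M)
      else if i = 1 then getB (fun m v => base (iVl m v)) (o % M) (o / M)
      else 0
  | .inr (.inl (m, u)), o =>
      if o = 0 then (zs m u).length else
        match (zs m u)[o - 1]? with
        | some z => base (iFl m z)
        | none => 0
  | .inr (.inr (.inl (m, v))), o =>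
      if o = 0 then (ys m v).length else
        match (ys m v)[(o - 1) / 2]? with
        | some y => if (o - 1) % 2 = 0 then (y.1 : ℕ) else y.2
        | none => 0
  | .inr (.inr (.inr (.inl (m, z)))), o =>
      if h : o < Q then (if sup m z ⟨o, h⟩ then base (iSl m z ⟨o, h⟩) else base iZr) else 0
  | .inr (.inr (.inr (.inr (m, z, q)))), o => if bit m z q o then 1 else 0

theorem len_zr : len zs ys sup Rm R iZr = R := by
  show (if (2 : Fin 3) = 2 then R else n * M) = R
  rw [if_pos rfl]

theorem val_zr (base : Ix M n Q → ℕ) (r : ℕ) : val zs ys bit sup base iZr r = 0 := by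
  show (if (2 : Fin 3) = 0 then getB (fun m u => base (iUl m u)) (r % M) (r / M)
      else if (2 : Fin 3) = 1 then getB (fun m v => base (iVl m v)) (r % M) (r / M)
      else 0) = 0
  rw [if_neg (by decide), if_neg (by decide)]

theorem val_ud (base : Ix M n Q → ℕ) (o : ℕ) : val zs ys bit sup base iUd o =
    getB (fun m u => base (iUl m u)) (o % M) (o / M) := by
  show (if (0 : Fin 3) = 0 then getB (fun m u => base (iUl m u)) (o % M) (o / M)
      else if (0 : Fin 3) = 1 then getB (fun m v => base (iVl m v)) (o % M) (o / M)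
      else 0) = _
  rw [if_pos rfl]

theorem val_vd (base : Ix M n Q → ℕ) (o : ℕ) : val zs ys bit sup base iVd o =
    getB (fun m v => base (iVl m v)) (o % M) (o / M) := by
  show (if (1 : Fin 3) = 0 then getB (fun m u => base (iUl m u)) (o % M) (o / M)
      else if (1 : Fin 3) = 1 then getB (fun m v => base (iVl m v)) (o % M) (o / M)
      else 0) = _
  rw [if_neg (by decide), if_pos rfl]

theorem val_ul0 (base : Ix M n Q → ℕ) (m : Fin M) (u : Fin n) :
    val zs ys bit sup base (iUl m u) 0 = (zs m u).length := by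
  simp [val, iUl]

theorem val_ul (base : Ix M n Q → ℕ) (m : Fin M) (u : Fin n) (a : ℕ) (ha : a < (zs m u).length) :
    val zs ys bit sup base (iUl m u) (a + 1) = base (iFl m ((zs m u)[a])) := by
  simp [val, iUl, List.getElem?_eq_getElem ha]

theorem val_vl0 (base : Ix M n Q → ℕ) (m : Fin M) (v : Fin n) :
    val zs ys bit sup base (iVl m v) 0 = (ys m v).length := by
  simp [val, iVl]

theorem val_vl1 (base : Ix M n Q → ℕ) (m : Fin M) (v : Fin n) (b : ℕ) (hb : b < (ys m v).length) :
    val zs ys bit sup base (iVl m v) (2 * b + 1) = (((ys m v)[b]).1 : ℕ) := by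
  have h1 : (2 * b + 1 - 1) / 2 = b := by omega
  have h2 : (2 * b + 1 - 1) % 2 = 0 := by omega
  simp only [val, iVl]
  rw [if_neg (by omega), h1, h2, List.getElem?_eq_getElem hb]
  simp

theorem val_vl2 (base : Ix M n Q → ℕ) (m : Fin M) (v : Fin n) (b : ℕ) (hb : b < (ys m v).length) :
    val zs ys bit sup base (iVl m v) (2 * b + 2) = ((ys m v)[b]).2 := by
  have h1 : (2 * b + 2 - 1) / 2 = b := by omega
  have h2 : (2 * b + 2 - 1) % 2 = 1 := by omega
  simp only [val, iVl]
  rw [if_neg (by omega), h1, h2, List.getElem?_eq_getElem hb]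
  simp

/-- Total length. -/
theorem sum_len : ∑ i, len zs ys sup Rm R i =
    (2 * (n * M) + R) + ((∑ m, ∑ u, (1 + (zs m u).length)) + ((∑ m, ∑ v, (1 + 2 * (ys m v).length)) +
      (M * n * Q + ∑ m, ∑ z, ∑ q, len zs ys sup Rm R (iSl m z q)))) := by
  rw [Fintype.sum_sum_type, Fintype.sum_sum_type, Fintype.sum_sum_type, Fintype.sum_sum_type]
  congr 1
  · rw [Fin.sum_univ_three]
    simp only [len]
    rw [if_neg (by decide), if_neg (by decide), if_pos trivial]
    ring
  congr 1
  · rw [Fintype.sum_prod_type]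
    rfl
  congr 1
  · rw [Fintype.sum_prod_type]
    rfl
  congr 1
  · simp [len]
  · rw [Fintype.sum_prod_type]
    apply sum_congr rfl
    intro m _
    rw [Fintype.sum_prod_type]
    rfl

/-- **The data structure.** -/
theorem structure_exists (hM : 0 < M) (hn : 0 < n) (hR : ∀ m, Rm m ≤ R) (hR1 : 1 ≤ R)
    (hys : ∀ m v, ∀ y ∈ ys m v, y.2 < Rm m)
    (hbit : ∀ m z q r, bit m z q r → sup m z q)
    (S K w : ℕ) (hS : 3 + ∑ i, len zs ys sup Rm R i ≤ S)
    (hK : ∀ m u v, (zs m u).length * ((ys m v).length + 1) ≤ K) (hw : 2 * S + 2 < 2 ^ w)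
    {T : ℝ} (hT : ((M * (13 * K + 12) + 14 : ℕ) : ℝ) ≤ T) :
    ∃ D : ℕ → ℕ, (∀ x, D x < 2 ^ w) ∧ (∀ x, S ≤ x → D x = 0) ∧
      ∀ u v : Fin n, HaltsWithin w prog (queryConfig D u v) T
        (ind (∃ m, ∃ z ∈ zs m u, ∃ y ∈ ys m v, bit m z y.1 y.2)) := by
  classical
  set L := len zs ys sup Rm R with hL
  have hsum := sum_len zs ys sup Rm R
  rw [← hL] at hsum
  have hQ : ∀ (q : Fin Q), (q : ℕ) ≤ S := by
    intro q
    have h1 := q.2
    have h2 : Q ≤ M * n * Q := Nat.le_mul_of_pos_left _ (Nat.mul_pos hM hn)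
    omega
  have hRS : R ≤ S := by omega
  have hMS : M ≤ S := by
    have : M ≤ n * M := Nat.le_mul_of_pos_left _ hn
    omega
  obtain ⟨base, D, hbase, hhd, hD, hD0, hDB⟩ := alloc L (val zs ys bit sup)
    (fun base i => if i = 0 then M else if i = 1 then base iUd else base iVd) S (by
    intro base hb
    have hb' : ∀ i, base i ≤ S := fun i => by
      have := hb i
      omega
    constructor
    · intro i o ho
      rcases i with i | ⟨m, u⟩ | ⟨m, v⟩ | ⟨m, z⟩ | ⟨m, z, q⟩
      · simp only [val, getB]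
        split_ifs <;> first | exact hb' _ | exact Nat.zero_le _
      · simp only [val]
        split_ifs
        · have h1 := hb (iUl m u)
          have h2 : L (iUl m u) = 1 + (zs m u).length := rfl
          omega
        · split
          · exact hb' _
          · exact Nat.zero_le _
      · simp only [val]
        by_cases h0 : o = 0
        · rw [if_pos h0]
          have h1 := hb (iVl m v)
          have h2 : L (iVl m v) = 1 + 2 * (ys m v).length := rfl
          omega
        · rw [if_neg h0]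
          split
          · rename_i y hy
            by_cases h3 : (o - 1) % 2 = 0
            · rw [if_pos h3]
              exact hQ _
            · rw [if_neg h3]
              have h1 := hys m v y (List.mem_of_getElem? hy)
              have h2 := hR m
              omega
          · exact Nat.zero_le _
      · simp only [val]
        split_ifs <;> first | exact hb' _ | exact Nat.zero_le _
      · simp only [val]
        split_ifs
        · omega
        · exact Nat.zero_le _
    · intro i
      split_ifs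
      · exact hMS
      · exact hb' _
      · exact hb' _)
  have hb' : ∀ i, base i ≤ S := fun i => by
    have := hbase i
    omega
  have e0 : D 0 = M := by
    rw [hhd 0 (by omega)]; rfl
  have e1 : D 1 = base iUd := by
    rw [hhd 1 (by omega)]; rfl
  have e2 : D 2 = base iVd := by
    rw [hhd 2 (by omega)]; rfl
  have hmod : ∀ (u : Fin n) (m : Fin M), (u.val * M + m.val) % M = m.val ∧
      (u.val * M + m.val) / M = u.val ∧ u.val * M + m.val < n * M := by
    intro u m
    refine ⟨?_, ?_, ?_⟩
    · rw [mul_comm, Nat.mul_add_mod, Nat.mod_eq_of_lt m.2]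
    · rw [mul_comm, Nat.mul_add_div hM, Nat.div_eq_of_lt m.2, add_zero]
    · have h1 : (u.val + 1) * M ≤ n * M := Nat.mul_le_mul_right _ u.2
      have h2 := m.2
      have h3 : (u.val + 1) * M = u.val * M + M := by ring
      omega
  have eU : ∀ (u : Fin n) (m : Fin M), D (D 1 + (u.val * D 0 + m.val)) = base (iUl m u) := by
    intro u m
    obtain ⟨h1, h2, h3⟩ := hmod u m
    rw [e0, e1, hD iUd _ (by show _ < n * M; exact h3), val_ud, h1, h2]
    exact getB_eq (fun m u => base (iUl m u)) m u
  have eV : ∀ (v : Fin n) (m : Fin M), D (D 2 + (v.val * D 0 + m.val)) = base (iVl m v) := by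
    intro v m
    obtain ⟨h1, h2, h3⟩ := hmod v m
    rw [e0, e2, hD iVd _ (by show _ < n * M; exact h3), val_vd, h1, h2]
    exact getB_eq (fun m v => base (iVl m v)) m v
  have lU : ∀ (u : Fin n) (m : Fin M), D (base (iUl m u)) = (zs m u).length := by
    intro u m
    have h := hD (iUl m u) 0 (by show 0 < 1 + (zs m u).length; omega)
    rw [add_zero] at h
    rw [h, val_ul0]
  have lV : ∀ (v : Fin n) (m : Fin M), D (base (iVl m v)) = (ys m v).length := by
    intro v m
    have h := hD (iVl m v) 0 (by show 0 < 1 + 2 * (ys m v).length; omega)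
    rw [add_zero] at h
    rw [h, val_vl0]
  have gU : ∀ (u : Fin n) (m : Fin M) (a : ℕ) (ha : a < (zs m u).length),
      D (base (iUl m u) + (a + 1)) = base (iFl m ((zs m u)[a])) := by
    intro u m a ha
    rw [hD (iUl m u) (a + 1) (by show a + 1 < 1 + (zs m u).length; omega), val_ul]
  have gV1 : ∀ (v : Fin n) (m : Fin M) (b : ℕ) (hb : b < (ys m v).length),
      D (base (iVl m v) + (2 * b + 1)) = (((ys m v)[b]).1 : ℕ) := by
    intro v m b hb
    rw [hD (iVl m v) (2 * b + 1) (by show 2 * b + 1 < 1 + 2 * (ys m v).length; omega), val_vl1]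
  have gV2 : ∀ (v : Fin n) (m : Fin M) (b : ℕ) (hb : b < (ys m v).length),
      D (base (iVl m v) + (2 * b + 2)) = ((ys m v)[b]).2 := by
    intro v m b hb
    rw [hD (iVl m v) (2 * b + 2) (by show 2 * b + 2 < 1 + 2 * (ys m v).length; omega), val_vl2]
  have gB : ∀ (m : Fin M) (z : Fin n) (q : Fin Q) (r : ℕ), r < Rm m →
      (0 < D (D (base (iFl m z) + q) + r) ↔ bit m z q r) := by
    intro m z q r hr
    have h1 : D (base (iFl m z) + q) = if sup m z q then base (iSl m z q) else base iZr := by
      rw [hD (iFl m z) q (by show _ < Q; exact q.2)]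
      show (if h : (q : ℕ) < Q then (if sup m z ⟨q, h⟩ then base (iSl m z ⟨q, h⟩) else base iZr)
        else 0) = _
      rw [dif_pos q.2]
    rw [h1]
    by_cases h2 : sup m z q
    · rw [if_pos h2, hD (iSl m z q) r (by
        show _ < (if sup m z q then Rm m else 0)
        rw [if_pos h2]; exact hr)]
      show 0 < (if bit m z q r then 1 else 0) ↔ _
      by_cases h3 : bit m z q r
      · simp [h3]
      · simp [h3]
    · have h3 : r < L iZr := by
        rw [hL, len_zr]
        exact lt_of_lt_of_le hr (hR m)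
      rw [if_neg h2, hD iZr r h3, val_zr]
      constructor
      · intro h
        exact absurd h (lt_irrefl 0)
      · intro h
        exact absurd (hbit m z q r h) h2
  refine ⟨D, fun x => lt_of_le_of_lt (hDB x) (by omega), fun x hx => hD0 x (by omega), ?_⟩
  intro u v
  have hans : Ans D u v ↔ ∃ m, ∃ z ∈ zs m u, ∃ y ∈ ys m v, bit m z y.1 y.2 := by
    unfold Ans Hit
    constructor
    · rintro ⟨m, hm, a, ha, b, hb, h⟩
      rw [e0] at hm
      have hU := eU u ⟨m, hm⟩
      have hV := eV v ⟨m, hm⟩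
      simp only at hU hV
      rw [hU, lU] at ha
      rw [hV, lV] at hb
      rw [hU, hV, gU _ _ a ha] at h
      unfold bitAt at h
      rw [gV1 _ _ b hb, gV2 _ _ b hb, gB _ _ _ _ (hys _ _ _ (List.getElem_mem hb))] at h
      exact ⟨⟨m, hm⟩, _, List.getElem_mem ha, _, List.getElem_mem hb, h⟩
    · rintro ⟨m, z, hz, y, hy, h⟩
      obtain ⟨a, ha, rfl⟩ := List.getElem_of_mem hz
      obtain ⟨b, hb, rfl⟩ := List.getElem_of_mem hy
      refine ⟨m, by rw [e0]; exact m.2, a, ?_, b, ?_, ?_⟩
      · rw [eU, lU]; exact ha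
      · rw [eV, lV]; exact hb
      · rw [eU, eV, gU _ _ a ha]
        unfold bitAt
        rw [gV1 _ _ b hb, gV2 _ _ b hb, gB _ _ _ _ (hys _ _ _ (List.getElem_mem hb))]
        exact h
  rw [← ind_congr hans]
  have hlt : ∀ u : Fin n, u.val * M + M ≤ n * M := by
    intro u
    have h1 : (u.val + 1) * M ≤ n * M := Nat.mul_le_mul_right _ u.2
    have h3 : (u.val + 1) * M = u.val * M + M := by ring
    omega
  refine halts_prog D u v S K hDB hw ?_ ?_ ?_ ?_ ?_ ?_
  · rw [e0, e1]
    have h1 := hbase iUd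
    have h2 : L iUd = n * M := rfl
    have := hlt u
    omega
  · rw [e0, e2]
    have h1 := hbase iVd
    have h2 : L iVd = n * M := rfl
    have := hlt v
    omega
  · intro m hm
    rw [e0] at hm
    have hU := eU u ⟨m, hm⟩
    simp only at hU
    rw [hU, lU]
    have h1 := hbase (iUl ⟨m, hm⟩ u)
    have h2 : L (iUl ⟨m, hm⟩ u) = 1 + (zs ⟨m, hm⟩ u).length := rfl
    omega
  · intro m hm
    rw [e0] at hm
    have hV := eV v ⟨m, hm⟩
    simp only at hV
    rw [hV, lV]
    have h1 := hbase (iVl ⟨m, hm⟩ v)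
    have h2 : L (iVl ⟨m, hm⟩ v) = 1 + 2 * (ys ⟨m, hm⟩ v).length := rfl
    omega
  · intro m hm
    rw [e0] at hm
    have hU := eU u ⟨m, hm⟩
    have hV := eV v ⟨m, hm⟩
    simp only at hU hV
    rw [hU, lU, hV, lV]
    exact hK _ _ _
  · rw [e0]; exact hT

end

end Pool.Agent.W5h81.KR
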