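import Pool.Agent.H588R2.Ram

/-!
# The query program of the reachability data structure

A read-only word RAM program with three nested loops.
-/

set_option autoImplicit false

namespace Pool.Agent.W5h81.KR

open Pool.Agent.H588R2

theorem set_reg (s : St) (d v x : ℕ) : (s.set d v).reg x = if x = d then v else s.reg x := by
  by_cases h : x = d
  · subst h; simp
  · rw [if_neg h, St.set_reg_ne _ _ h]

/-- sequence of commands -/
def seqs : List Cmd → Cmd
  | [] => .skip
  | [c] => c
  | c :: d :: cs => .seq c (seqs (d :: cs))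

/-- The body of the innermost loop. -/
def bodyB : Cmd := seqs
  [.op (.add 16 16 3), .op (.load 18 16), .op (.add 16 16 3), .op (.load 19 16),
   .op (.add 18 15 18), .op (.load 18 18), .op (.add 18 18 19), .op (.load 18 18),
   .ite 2 18 (.op (.const 0 1)) .skip, .op (.add 17 17 3)]

/-- The bit read for the entry at `p` of the first list and the entry number `b` of the list at `v`. -/
def bitAt (D : ℕ → ℕ) (p v b : ℕ) : ℕ :=
  D (D (p + D (v + (2 * b + 1))) + D (v + (2 * b + 2)))

/-- loop over the second list -/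
def loopB : Cmd := seqs [.op (.add 16 11 2), .op (.const 17 0), .loop 17 13 bodyB]

open Classical in
/-- `1` if `P`, else `0` -/
noncomputable def ind (P : Prop) : ℕ := if P then 1 else 0

theorem ind_true {P : Prop} (h : P) : ind P = 1 := if_pos h

theorem ind_false {P : Prop} (h : ¬ P) : ind P = 0 := if_neg h

theorem ind_le (P : Prop) : ind P ≤ 1 := by
  by_cases h : P
  · rw [ind_true h]
  · rw [ind_false h]; omega

theorem ind_congr {P Q : Prop} (h : P ↔ Q) : ind P = ind Q := by
  by_cases h1 : P
  · rw [ind_true h1, ind_true (h.1 h1)]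
  · rw [ind_false h1, ind_false (fun h2 => h1 (h.2 h2))]

theorem runs_loopB {w : ℕ} (D : ℕ → ℕ) (s : St) (hmem : s.mem = D) (v p L B : ℕ) (R : Prop)
    (h0 : s.reg 0 = ind R) (h2 : s.reg 2 = 0) (h3 : s.reg 3 = 1) (h11 : s.reg 11 = v)
    (h13 : s.reg 13 = L) (h15 : s.reg 15 = p)
    (hD : ∀ x, D x ≤ B) (hB : 2 * B + 2 < 2 ^ w) (hv : v + 2 * L + 1 ≤ B) (hp : p ≤ B)
    {Q : St → ℕ → Prop}
    (hQ : ∀ s' t, Same {0, 16, 17, 18, 19} s s' →
      s'.reg 0 = ind (R ∨ ∃ b, b < L ∧ 0 < bitAt D p v b) → t ≤ 13 * L + 4 → Q s' t) :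
    Runs w loopB s Q := by
  unfold loopB
  simp only [seqs]
  apply Runs.seq
  apply Runs.add (by rw [h11, h2]; omega)
  apply Runs.seq
  apply Runs.const (by omega)
  refine Runs.loop L (fun q s' τ => Same {0, 16, 17, 18, 19} s s' ∧ s'.reg 17 = q ∧
    s'.reg 16 = v + 2 * q ∧ s'.reg 0 = ind (R ∨ ∃ b, b < q ∧ 0 < bitAt D p v b) ∧
    τ ≤ 13 * q) ?_ ?_ ?_ ?_
  · rintro q s' τ hq ⟨hs', h17', h16', h0', hτ⟩
    have m' : s'.mem = D := by rw [hs'.1, hmem]
    have h2' : s'.reg 2 = 0 := by rw [hs'.2 2 (by simp), h2]
    have h3' : s'.reg 3 = 1 := by rw [hs'.2 3 (by simp), h3]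
    have h13' : s'.reg 13 = L := by rw [hs'.2 13 (by simp), h13]
    have h15' : s'.reg 15 = p := by rw [hs'.2 15 (by simp), h15]
    refine ⟨by rw [h17', h13']; exact hq, ?_⟩
    unfold bodyB
    simp only [seqs]
    have b1 := hD (v + (2 * q + 1))
    have b2 := hD (v + (2 * q + 2))
    have b3 := hD (p + D (v + (2 * q + 1)))
    have b4 := hD (D (p + D (v + (2 * q + 1))) + D (v + (2 * q + 2)))
    apply Runs.seq
    apply Runs.add (by rw [h16', h3']; omega)
    apply Runs.seq
    have e1 : v + 2 * q + 1 = v + (2 * q + 1) := by ring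
    apply Runs.load
    · simp only [set_reg, St.set_mem, m', h16', h3', if_true, e1]; omega
    apply Runs.seq
    simp only [set_reg, St.set_mem, m', h16', h3', if_true, e1]
    apply Runs.add
    · simp only [set_reg, h3']; norm_num; omega
    apply Runs.seq
    simp only [set_reg, h3']
    norm_num only
    simp only [if_true, if_false]
    have e2 : v + (2 * q + 1) + 1 = v + (2 * q + 2) := by ring
    apply Runs.load
    · simp only [set_reg, St.set_mem, m', if_true, e2]; omega
    simp only [set_reg, St.set_mem, m', if_true, e2]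
    apply Runs.seq
    apply Runs.add
    · simp only [set_reg, h15']; norm_num; omega
    simp only [set_reg, h15']
    norm_num only
    simp only [if_true, if_false]
    apply Runs.seq
    apply Runs.load
    · simp only [set_reg, St.set_mem, m', if_true]; omega
    simp only [set_reg, St.set_mem, m', if_true]
    apply Runs.seq
    apply Runs.add
    · simp only [set_reg]; norm_num; omega
    simp only [set_reg]
    norm_num only
    simp only [if_true, if_false]
    apply Runs.seq
    apply Runs.load
    · simp only [set_reg, St.set_mem, m', if_true]; omega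
    simp only [set_reg, St.set_mem, m', if_true]
    apply Runs.seq
    have hbit : D (D (p + D (v + (2 * q + 1))) + D (v + (2 * q + 2))) = bitAt D p v q := rfl
    rw [hbit]
    have hS : ∀ {x y z a b c d : ℕ} , Same {0, 16, 17, 18, 19} s
        ((((((((s'.set 16 x).set 18 y).set 16 z).set 19 a).set 18 b).set 18 c).set 18 d).set 18
          (bitAt D p v q)) := by
      intro x y z a b c d
      exact ((((((((hs'.set (by simp) _).set (by simp) _).set (by simp) _).set (by simp) _).set
        (by simp) _).set (by simp) _).set (by simp) _).set (by simp) _)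
    have hex : (∃ b, b ≤ q ∧ 0 < bitAt D p v b) ↔
        ((∃ b, b < q ∧ 0 < bitAt D p v b) ∨ 0 < bitAt D p v q) := by
      constructor
      · rintro ⟨b, hb, h⟩
        rcases Nat.lt_or_eq_of_le hb with h1 | h1
        · exact Or.inl ⟨b, h1, h⟩
        · subst h1; exact Or.inr h
      · rintro (⟨b, hb, h⟩ | h)
        · exact ⟨b, by omega, h⟩
        · exact ⟨q, by omega, h⟩
    apply Runs.ite
    · intro hlt
      simp only [set_reg] at hlt
      norm_num only at hlt
      simp only [if_true, if_false, h2'] at hlt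
      apply Runs.const (by omega)
      apply Runs.add
      · simp only [set_reg]; norm_num; rw [h17', h3']; omega
      simp only [set_reg]
      norm_num only
      simp only [if_true, if_false, h17', h3']
      refine ⟨(hS.set (by simp) _).set (by simp) _, by simp, ?_, ?_, ?_⟩
      · norm_num; ring
      · norm_num
        rw [ind_true]
        rw [hex]
        exact Or.inr (Or.inr hlt)
      · omega
    · intro hlt
      simp only [set_reg] at hlt
      norm_num only at hlt
      simp only [if_true, if_false, h2'] at hlt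
      apply Runs.skip
      apply Runs.add
      · simp only [set_reg]; norm_num; rw [h17', h3']; omega
      simp only [set_reg]
      norm_num only
      simp only [if_true, if_false, h17', h3']
      refine ⟨hS.set (by simp) _, by simp, ?_, ?_, ?_⟩
      · norm_num; ring
      · norm_num
        rw [h0']
        apply ind_congr
        rw [hex]
        constructor
        · rintro (h | h)
          · exact Or.inl h
          · exact Or.inr (Or.inl h)
        · rintro (h | h | h)
          · exact Or.inl h
          · exact Or.inr h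
          · exact absurd h hlt
      · omega
  · rintro s' τ ⟨hs', h17', -⟩
    rw [h17', hs'.2 13 (by simp), h13]; omega
  · refine ⟨((Same.refl _ s).set (by simp) _).set (by simp) _, by simp [set_reg], ?_, ?_, by simp⟩
    · simp only [set_reg, h11, h2]; norm_num
    · simp only [set_reg, h0]
      norm_num
  · rintro s' τ ⟨hs', h17', h16', h0', hτ⟩
    exact hQ _ _ hs' h0' (by omega)

/-- the middle loop: over the first list -/
def bodyA : Cmd := seqs
  [.op (.add 10 10 3), .op (.load 15 10), loopB, .op (.add 14 14 3)]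

/-- The test for the lists at `x` and `v`. -/
def Hit (D : ℕ → ℕ) (x v : ℕ) : Prop :=
  ∃ a, a < D x ∧ ∃ b, b < D v ∧ 0 < bitAt D (D (x + (a + 1))) v b

/-- loop over the first list -/
def loopA : Cmd := seqs [.op (.const 14 0), .loop 14 12 bodyA]

theorem runs_loopA {w : ℕ} (D : ℕ → ℕ) (s : St) (hmem : s.mem = D) (x v B : ℕ) (R : Prop)
    (h0 : s.reg 0 = ind R) (h2 : s.reg 2 = 0) (h3 : s.reg 3 = 1) (h10 : s.reg 10 = x)
    (h11 : s.reg 11 = v) (h12 : s.reg 12 = D x) (h13 : s.reg 13 = D v)
    (hD : ∀ x, D x ≤ B) (hB : 2 * B + 2 < 2 ^ w) (hv : v + 2 * D v + 1 ≤ B) (hx : x + D x ≤ B)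
    {Q : St → ℕ → Prop}
    (hQ : ∀ s' t, Same {0, 10, 14, 15, 16, 17, 18, 19} s s' →
      s'.reg 0 = ind (R ∨ Hit D x v) → t ≤ D x * (13 * D v + 9) + 3 → Q s' t) :
    Runs w loopA s Q := by
  unfold loopA
  simp only [seqs]
  apply Runs.seq
  apply Runs.const (by omega)
  refine Runs.loop (D x) (fun q s' τ => Same {0, 10, 14, 15, 16, 17, 18, 19} s s' ∧
    s'.reg 14 = q ∧ s'.reg 10 = x + q ∧
    s'.reg 0 = ind (R ∨ ∃ a, a < q ∧ ∃ b, b < D v ∧ 0 < bitAt D (D (x + (a + 1))) v b) ∧
    τ ≤ q * (13 * D v + 9)) ?_ ?_ ?_ ?_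
  · rintro q s' τ hq ⟨hs', h14', h10', h0', hτ⟩
    have m' : s'.mem = D := by rw [hs'.1, hmem]
    have h2' : s'.reg 2 = 0 := by rw [hs'.2 2 (by simp), h2]
    have h3' : s'.reg 3 = 1 := by rw [hs'.2 3 (by simp), h3]
    have h11' : s'.reg 11 = v := by rw [hs'.2 11 (by simp), h11]
    have h12' : s'.reg 12 = D x := by rw [hs'.2 12 (by simp), h12]
    have h13' : s'.reg 13 = D v := by rw [hs'.2 13 (by simp), h13]
    refine ⟨by rw [h14', h12']; exact hq, ?_⟩
    unfold bodyA
    simp only [seqs]
    have b1 := hD (x + (q + 1))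
    apply Runs.seq
    apply Runs.add (by rw [h10', h3']; omega)
    have e1 : x + q + 1 = x + (q + 1) := by ring
    apply Runs.seq
    apply Runs.load
    · simp only [set_reg, St.set_mem, m', h10', h3', if_true, e1]; omega
    simp only [set_reg, St.set_mem, m', h10', h3', if_true, e1]
    apply Runs.seq
    refine runs_loopB D _ (by simp [m']) v (D (x + (q + 1))) (D v) B
      (R ∨ ∃ a, a < q ∧ ∃ b, b < D v ∧ 0 < bitAt D (D (x + (a + 1))) v b)
      (by simp [set_reg, h0']) (by simp [set_reg, h2']) (by simp [set_reg, h3'])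
      (by simp [set_reg, h11']) (by simp [set_reg, h13']) (by simp [set_reg]) hD hB (by omega)
      b1 ?_
    intro s2 t2 hs2 h02 ht2
    have hS : Same {0, 10, 14, 15, 16, 17, 18, 19} s s2 :=
      ((hs'.set (by simp) _).set (by simp) _).trans (hs2.mono (by
        intro y hy; simp at hy; simp; omega))
    have h14'' : s2.reg 14 = q := by
      rw [hs2.2 14 (by simp)]; simp [set_reg, h14']
    have h3'' : s2.reg 3 = 1 := by rw [hS.2 3 (by simp), h3]
    have h10'' : s2.reg 10 = x + (q + 1) := by
      rw [hs2.2 10 (by simp)]; simp [set_reg]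
    apply Runs.add
    · rw [h14'', h3'']; omega
    rw [h14'', h3'']
    refine ⟨hS.set (by simp) _, by simp, ?_, ?_, ?_⟩
    · simp only [set_reg]; norm_num; exact h10''
    · rw [set_reg, if_neg (by norm_num), h02]
      apply ind_congr
      constructor
      · rintro ((h | ⟨a, ha, h⟩) | h)
        · exact Or.inl h
        · exact Or.inr ⟨a, by omega, h⟩
        · exact Or.inr ⟨q, by omega, h⟩
      · rintro (h | ⟨a, ha, h⟩)
        · exact Or.inl (Or.inl h)
        · rcases Nat.lt_succ_iff_lt_or_eq.1 ha with h1 | h1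
          · exact Or.inl (Or.inr ⟨a, h1, h⟩)
          · subst h1; exact Or.inr h
    · have : (q + 1) * (13 * D v + 9) = q * (13 * D v + 9) + (13 * D v + 9) := by ring
      rw [this]; omega
  · rintro s' τ ⟨hs', h14', -⟩
    rw [h14', hs'.2 12 (by simp), h12]; omega
  · refine ⟨((Same.refl _ s).set (by simp) _), by simp, ?_, ?_, by simp⟩
    · simp only [set_reg, h10]; norm_num
    · simp only [set_reg, h0]
      norm_num
  · rintro s' τ ⟨hs', h14', h10', h0', hτ⟩
    exact hQ _ _ hs' h0' (by omega)

/-- the body of the outer loop -/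
def bodyM : Cmd := seqs
  [.op (.load 10 7), .op (.load 11 8), .op (.load 12 10), .op (.load 13 11), loopA,
   .op (.add 7 7 3), .op (.add 8 8 3), .op (.add 9 9 3)]

/-- The query program (structured). -/
def code : Cmd := seqs
  [.op (.const 2 0), .op (.const 3 1), .op (.load 4 2), .op (.load 5 3), .op (.const 6 2),
   .op (.load 6 6), .op (.mul 7 0 4), .op (.add 7 7 5), .op (.mul 8 1 4), .op (.add 8 8 6),
   .op (.const 9 0), .op (.const 0 0), .loop 9 4 bodyM]

/-- The answer computed by the program: cells `0, 1, 2` contain the number `M` of tests and the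
addresses of two directories. -/
def Ans (D : ℕ → ℕ) (u v : ℕ) : Prop :=
  ∃ m, m < D 0 ∧ Hit D (D (D 1 + (u * D 0 + m))) (D (D 2 + (v * D 0 + m)))

theorem runs_code {w : ℕ} (D : ℕ → ℕ) (s : St) (hmem : s.mem = D) (u v B K : ℕ)
    (h0 : s.reg 0 = u) (h1 : s.reg 1 = v)
    (hD : ∀ x, D x ≤ B) (hB : 2 * B + 2 < 2 ^ w)
    (hu : D 1 + (u * D 0 + D 0) ≤ B) (hv : D 2 + (v * D 0 + D 0) ≤ B)
    (hlu : ∀ m, m < D 0 → D (D 1 + (u * D 0 + m)) + D (D (D 1 + (u * D 0 + m))) ≤ B)
    (hlv : ∀ m, m < D 0 → D (D 2 + (v * D 0 + m)) + 2 * D (D (D 2 + (v * D 0 + m))) + 1 ≤ B)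
    (hK : ∀ m, m < D 0 → D (D (D 1 + (u * D 0 + m))) * (D (D (D 2 + (v * D 0 + m))) + 1) ≤ K) :
    Runs w code s (fun s' t => s'.reg 0 = ind (Ans D u v) ∧ t ≤ D 0 * (13 * K + 12) + 14) := by
  unfold code
  simp only [seqs]
  have d0 := hD 0
  have d1 := hD 1
  have d2 := hD 2
  have f1 : u * D 0 ≤ B := by omega
  have f2 : v * D 0 ≤ B := by omega
  apply Runs.seq
  apply Runs.const (by omega)
  apply Runs.seq
  apply Runs.const (by omega)
  apply Runs.seq
  apply Runs.load
  · simp only [set_reg, St.set_mem, hmem]; norm_num; omega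
  simp only [set_reg, St.set_mem, hmem]
  norm_num only
  simp only [if_true, if_false]
  apply Runs.seq
  apply Runs.load
  · simp only [set_reg, St.set_mem, hmem]; norm_num; omega
  simp only [set_reg, St.set_mem, hmem]
  norm_num only
  simp only [if_true, if_false]
  apply Runs.seq
  apply Runs.const (by omega)
  apply Runs.seq
  apply Runs.load
  · simp only [set_reg, St.set_mem, hmem]; norm_num; omega
  simp only [set_reg, St.set_mem, hmem]
  norm_num only
  simp only [if_true, if_false]
  apply Runs.seq
  apply Runs.mul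
  · simp only [set_reg, h0]; norm_num; omega
  simp only [set_reg, h0]
  norm_num only
  simp only [if_true, if_false]
  apply Runs.seq
  apply Runs.add
  · simp only [set_reg]; norm_num; omega
  simp only [set_reg]
  norm_num only
  simp only [if_true, if_false]
  apply Runs.seq
  apply Runs.mul
  · simp only [set_reg, h1]; norm_num; omega
  simp only [set_reg, h1]
  norm_num only
  simp only [if_true, if_false]
  apply Runs.seq
  apply Runs.add
  · simp only [set_reg]; norm_num; omega
  simp only [set_reg]
  norm_num only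
  simp only [if_true, if_false]
  apply Runs.seq
  apply Runs.const (by omega)
  apply Runs.seq
  apply Runs.const (by omega)
  refine Runs.loop (D 0) (fun q s' τ => s'.mem = D ∧ s'.reg 2 = 0 ∧ s'.reg 3 = 1 ∧
    s'.reg 4 = D 0 ∧ s'.reg 7 = D 1 + (u * D 0 + q) ∧ s'.reg 8 = D 2 + (v * D 0 + q) ∧
    s'.reg 9 = q ∧ s'.reg 0 = ind (∃ m, m < q ∧
      Hit D (D (D 1 + (u * D 0 + m))) (D (D 2 + (v * D 0 + m)))) ∧
    τ ≤ q * (13 * K + 12)) ?_ ?_ ?_ ?_
  · rintro q s' τ hq ⟨m', h2', h3', h4', h7', h8', h9', h0', hτ⟩
    refine ⟨by rw [h9', h4']; exact hq, ?_⟩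
    unfold bodyM
    simp only [seqs]
    have k1 := hlu q hq
    have k2 := hlv q hq
    have k3 := hK q hq
    have b1 := hD (D 1 + (u * D 0 + q))
    have b2 := hD (D 2 + (v * D 0 + q))
    set x := D (D 1 + (u * D 0 + q)) with hx
    set y := D (D 2 + (v * D 0 + q)) with hy
    have b3 := hD x
    have b4 := hD y
    apply Runs.seq
    apply Runs.load
    · rw [m', h7']; omega
    rw [m', h7', ← hx]
    apply Runs.seq
    apply Runs.load
    · simp only [set_reg, St.set_mem, m']; norm_num; rw [h8']; omega
    simp only [set_reg, St.set_mem, m']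
    norm_num only
    simp only [if_false, h8', ← hy]
    apply Runs.seq
    apply Runs.load
    · simp only [set_reg, St.set_mem, m']; norm_num; omega
    simp only [set_reg, St.set_mem, m']
    norm_num only
    simp only [if_true, if_false]
    apply Runs.seq
    apply Runs.load
    · simp only [set_reg, St.set_mem, m']; norm_num; omega
    simp only [set_reg, St.set_mem, m']
    norm_num only
    simp only [if_true, if_false]
    apply Runs.seq
    refine runs_loopA D _ (by simp [m']) x y B
      (∃ m, m < q ∧ Hit D (D (D 1 + (u * D 0 + m))) (D (D 2 + (v * D 0 + m))))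
      (by simp [set_reg, h0']) (by simp [set_reg, h2']) (by simp [set_reg, h3'])
      (by simp [set_reg]) (by simp [set_reg]) (by simp [set_reg]) (by simp [set_reg])
      hD hB (by omega) (by omega) ?_
    intro s2 t2 hs2 h02 ht2
    have h3'' : s2.reg 3 = 1 := by rw [hs2.2 3 (by simp)]; simp [set_reg, h3']
    have h2'' : s2.reg 2 = 0 := by rw [hs2.2 2 (by simp)]; simp [set_reg, h2']
    have h4'' : s2.reg 4 = D 0 := by rw [hs2.2 4 (by simp)]; simp [set_reg, h4']
    have h7'' : s2.reg 7 = D 1 + (u * D 0 + q) := by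
      rw [hs2.2 7 (by simp)]; simp [set_reg, h7']
    have h8'' : s2.reg 8 = D 2 + (v * D 0 + q) := by
      rw [hs2.2 8 (by simp)]; simp [set_reg, h8']
    have h9'' : s2.reg 9 = q := by
      rw [hs2.2 9 (by simp)]; simp [set_reg, h9']
    have m'' : s2.mem = D := by rw [hs2.1]; simp [m']
    apply Runs.seq
    apply Runs.add
    · rw [h7'', h3'']; omega
    rw [h7'', h3'']
    apply Runs.seq
    apply Runs.add
    · simp only [set_reg]; norm_num; rw [h8'', h3'']; omega
    simp only [set_reg]
    norm_num only
    simp only [if_false, h8'', h3'']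
    apply Runs.add
    · simp only [set_reg]; norm_num; rw [h9'', h3'']; omega
    simp only [set_reg]
    norm_num only
    simp only [if_false, h9'', h3'']
    refine ⟨by simp [m''], by norm_num [h2''], by norm_num [h3''], by norm_num [h4''], ?_, ?_, ?_, ?_, ?_⟩
    · norm_num; ring
    · norm_num; ring
    · norm_num
    · rw [h02]
      apply ind_congr
      constructor
      · rintro (⟨m, hm, h⟩ | h)
        · exact ⟨m, by omega, h⟩
        · exact ⟨q, by omega, h⟩
      · rintro ⟨m, hm, h⟩
        rcases Nat.lt_succ_iff_lt_or_eq.1 hm with h1 | h1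
        · exact Or.inl ⟨m, h1, h⟩
        · subst h1; exact Or.inr h
    · have e3 : (q + 1) * (13 * K + 12) = q * (13 * K + 12) + (13 * K + 12) := by ring
      have e4 : D x * (13 * D y + 9) ≤ 13 * K := by
        have : D x * (13 * D y + 9) ≤ 13 * (D x * (D y + 1)) := by
          have : 13 * (D x * (D y + 1)) = D x * (13 * D y + 13) := by ring
          rw [this]
          exact Nat.mul_le_mul_left _ (by omega)
        omega
      rw [e3]; omega
  · rintro s' τ ⟨-, -, -, h4', -, -, h9', -⟩
    rw [h9', h4']; omega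
  · refine ⟨by simp [hmem], ?_, ?_, ?_, ?_, ?_, ?_, ?_, by simp⟩
    all_goals norm_num [set_reg]
    · ring
    · ring
    · rw [ind_false (by simp)]
  · rintro s' τ ⟨-, -, -, -, -, -, -, h0', hτ⟩
    refine ⟨h0', ?_⟩
    omega

/-- The query program: it does not depend on the number of vertices, on the graph or on the
parameters of the data structure, and it never writes to the memory. -/
def prog : List Instr := code.compile 0

/-- Instructions that do not write to the memory. -/
def ReadOnly : Instr → Prop
  | .op (.store _ _) => False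
  | _ => True

instance : DecidablePred ReadOnly := fun i => by
  cases i with
  | op o => cases o <;> (unfold ReadOnly; infer_instance)
  | _ => unfold ReadOnly; infer_instance

theorem prog_readOnly : ∀ i ∈ prog, ReadOnly i := by decide

/-- The configuration at the start of a query: register `0` holds `u`, register `1` holds `v`, all
other registers are zero, the memory is `D`. -/
def queryConfig (D : ℕ → ℕ) (u v : ℕ) : Config where
  pc := 0
  st := { reg := fun i => if i = 0 then u else if i = 1 then v else 0, mem := D }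

theorem halts_prog {w : ℕ} (D : ℕ → ℕ) (u v B K : ℕ)
    (hD : ∀ x, D x ≤ B) (hB : 2 * B + 2 < 2 ^ w)
    (hu : D 1 + (u * D 0 + D 0) ≤ B) (hv : D 2 + (v * D 0 + D 0) ≤ B)
    (hlu : ∀ m, m < D 0 → D (D 1 + (u * D 0 + m)) + D (D (D 1 + (u * D 0 + m))) ≤ B)
    (hlv : ∀ m, m < D 0 → D (D 2 + (v * D 0 + m)) + 2 * D (D (D 2 + (v * D 0 + m))) + 1 ≤ B)
    (hK : ∀ m, m < D 0 → D (D (D 1 + (u * D 0 + m))) * (D (D (D 2 + (v * D 0 + m))) + 1) ≤ K)
    {T : ℝ} (hT : ((D 0 * (13 * K + 12) + 14 : ℕ) : ℝ) ≤ T) :
    HaltsWithin w prog (queryConfig D u v) T (ind (Ans D u v)) := by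
  obtain ⟨s', t, he, h0, ht⟩ := runs_code (w := w) D (queryConfig D u v).st rfl u v B K
    (by simp [queryConfig]) (by simp [queryConfig]) hD hB hu hv hlu hlv hK
  have hc := compile_correct w prog he 0 (by
    intro i _
    simp [prog])
  refine ⟨t, le_trans (by exact_mod_cast ht) hT, ?_, ?_⟩
  · right
    have : (step w prog)^[t] (queryConfig D u v) = ⟨0 + code.size, s'⟩ := hc
    rw [this]
    simp only [prog]
    rw [List.getElem?_eq_none]
    rw [Cmd.length_compile]
    omega
  · have : (step w prog)^[t] (queryConfig D u v) = ⟨0 + code.size, s'⟩ := hc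
    rw [this]
    exact h0

end Pool.Agent.W5h81.KR
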